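import Mathlib

/-!
Leonard triples and the sl2 Krawtchouk pair: definitions.
-/

namespace N704.LT

open Matrix

variable {K : Type*} [Field K] {d : ℕ}

/-- `M` is irreducible tridiagonal: all entries `(i,j)` with `|i-j| > 1` are zero and all entries
`(i,i+1)` and `(i+1,i)` are nonzero. -/
def IrrTridiag (M : Matrix (Fin (d + 1)) (Fin (d + 1)) K) : Prop :=
  (∀ i j : Fin (d + 1), (i : ℕ) + 1 < (j : ℕ) ∨ (j : ℕ) + 1 < (i : ℕ) → M i j = 0) ∧
  (∀ i j : Fin (d + 1), (j : ℕ) = (i : ℕ) + 1 ∨ (i : ℕ) = (j : ℕ) + 1 → M i j ≠ 0)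

/-- There is a basis (the columns of an invertible matrix `P`) in which `X` is diagonal and
`Y`, `Z` are irreducible tridiagonal. -/
def LeonardAt (X Y Z : Matrix (Fin (d + 1)) (Fin (d + 1)) K) : Prop :=
  ∃ P : Matrix (Fin (d + 1)) (Fin (d + 1)) K, IsUnit P ∧
    (P⁻¹ * X * P).IsDiag ∧ IrrTridiag (P⁻¹ * Y * P) ∧ IrrTridiag (P⁻¹ * Z * P)

/-- `(X, Y, Z)` is a Leonard triple on `K^{d+1}`. -/
def LeonardTriple (X Y Z : Matrix (Fin (d + 1)) (Fin (d + 1)) K) : Prop :=
  LeonardAt X Y Z ∧ LeonardAt Y X Z ∧ LeonardAt Z X Y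

/-- The matrix `A` of the problem: `A_{i,i+1} = d - i`, `A_{i+1,i} = i + 1`, all other entries
zero. -/
def kA (K : Type*) [Field K] (d : ℕ) : Matrix (Fin (d + 1)) (Fin (d + 1)) K :=
  Matrix.of fun i j =>
    if (j : ℕ) = (i : ℕ) + 1 then (d : K) - ((i : ℕ) : K)
    else if (i : ℕ) = (j : ℕ) + 1 then ((j : ℕ) : K) + 1 else 0

/-- The matrix `A^* = diag(d, d-2, …, -d)`. -/
def kS (K : Type*) [Field K] (d : ℕ) : Matrix (Fin (d + 1)) (Fin (d + 1)) K :=
  Matrix.diagonal fun i => (d : K) - 2 * ((i : ℕ) : K)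

/-- `e` in the irreducible module -/
def mE (K : Type*) [Field K] (d : ℕ) : Matrix (Fin (d + 1)) (Fin (d + 1)) K :=
  Matrix.of fun i j => if (j : ℕ) = (i : ℕ) + 1 then (d : K) - ((i : ℕ) : K) else 0

/-- `f` in the irreducible module -/
def mF (K : Type*) [Field K] (d : ℕ) : Matrix (Fin (d + 1)) (Fin (d + 1)) K :=
  Matrix.of fun i j => if (i : ℕ) = (j : ℕ) + 1 then ((j : ℕ) : K) + 1 else 0

theorem kA_eq : kA K d = mE K d + mF K d := by
  ext i j
  simp only [kA, mE, mF, Matrix.of_apply, Matrix.add_apply]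
  by_cases h1 : (j : ℕ) = (i : ℕ) + 1
  · have h2 : ¬ (i : ℕ) = (j : ℕ) + 1 := by omega
    rw [if_pos h1, if_pos h1, if_neg h2, add_zero]
  · rw [if_neg h1, if_neg h1, zero_add]

/-- extension of a matrix by zero to `ℕ × ℕ` -/
def ex (M : Matrix (Fin (d + 1)) (Fin (d + 1)) K) (i j : ℕ) : K :=
  if h : i < d + 1 ∧ j < d + 1 then M ⟨i, h.1⟩ ⟨j, h.2⟩ else 0

theorem ex_apply (M : Matrix (Fin (d + 1)) (Fin (d + 1)) K) (i j : Fin (d + 1)) :
    ex M i j = M i j := by
  simp [ex, i.2, j.2]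

theorem ex_of_lt (M : Matrix (Fin (d + 1)) (Fin (d + 1)) K) {i j : ℕ} (hi : i < d + 1)
    (hj : j < d + 1) : ex M i j = M ⟨i, hi⟩ ⟨j, hj⟩ := by
  simp [ex, hi, hj]

theorem ex_row_out (M : Matrix (Fin (d + 1)) (Fin (d + 1)) K) {i j : ℕ} (hi : d < i) :
    ex M i j = 0 := by
  have : ¬ (i < d + 1 ∧ j < d + 1) := by omega
  exact dif_neg this

theorem ex_col_out (M : Matrix (Fin (d + 1)) (Fin (d + 1)) K) {i j : ℕ} (hj : d < j) :
    ex M i j = 0 := by
  have : ¬ (i < d + 1 ∧ j < d + 1) := by omega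
  exact dif_neg this

theorem ext_ex {M N : Matrix (Fin (d + 1)) (Fin (d + 1)) K}
    (h : ∀ i j, i ≤ d → j ≤ d → ex M i j = ex N i j) : M = N := by
  ext i j
  rw [← ex_apply M, ← ex_apply N]
  exact h _ _ (by omega) (by omega)

theorem ex_add (M N : Matrix (Fin (d + 1)) (Fin (d + 1)) K) (i j : ℕ) :
    ex (M + N) i j = ex M i j + ex N i j := by
  unfold ex; split_ifs <;> simp

theorem ex_sub (M N : Matrix (Fin (d + 1)) (Fin (d + 1)) K) (i j : ℕ) :
    ex (M - N) i j = ex M i j - ex N i j := by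
  unfold ex; split_ifs <;> simp

theorem ex_neg (M : Matrix (Fin (d + 1)) (Fin (d + 1)) K) (i j : ℕ) :
    ex (-M) i j = - ex M i j := by
  unfold ex; split_ifs <;> simp

theorem ex_smul (c : K) (M : Matrix (Fin (d + 1)) (Fin (d + 1)) K) (i j : ℕ) :
    ex (c • M) i j = c * ex M i j := by
  unfold ex; split_ifs <;> simp

theorem ex_zero (i j : ℕ) : ex (0 : Matrix (Fin (d + 1)) (Fin (d + 1)) K) i j = 0 := by
  unfold ex; split_ifs <;> simp

theorem ex_one {i j : ℕ} (hi : i ≤ d) :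
    ex (1 : Matrix (Fin (d + 1)) (Fin (d + 1)) K) i j = if i = j then 1 else 0 := by
  unfold ex
  split_ifs with h1 h2 h2
  · subst h2; simp
  · rw [Matrix.one_apply_ne]; intro h; exact h2 (by simpa using h)
  · omega
  · rfl

theorem ex_E_mul (M : Matrix (Fin (d + 1)) (Fin (d + 1)) K) (i j : ℕ) :
    ex (mE K d * M) i j = ((d : K) - (i : K)) * ex M (i + 1) j := by
  by_cases hj : j < d + 1
  swap
  · rw [ex_col_out _ (by omega), ex_col_out _ (by omega)]; simp
  by_cases hi : i < d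
  · rw [ex_of_lt _ (by omega) hj, ex_of_lt _ (by omega : i + 1 < d + 1) hj, Matrix.mul_apply,
      Finset.sum_eq_single (⟨i + 1, by omega⟩ : Fin (d + 1))]
    · simp [mE]
    · intro b _ hb
      have : ¬ (b : ℕ) = i + 1 := fun h => hb (Fin.ext h)
      simp [mE, this]
    · simp
  · rw [ex_row_out M (by omega)]
    rcases Nat.lt_or_ge d i with h | h
    · rw [ex_row_out _ h]; simp
    · have hid : i = d := by omega
      subst hid
      simp only [mul_zero]
      rw [ex_of_lt _ (by omega) hj, Matrix.mul_apply]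
      apply Finset.sum_eq_zero
      intro b _
      have : ¬ (b : ℕ) = i + 1 := by omega
      simp [mE]

theorem ex_F_mul_zero (M : Matrix (Fin (d + 1)) (Fin (d + 1)) K) (j : ℕ) :
    ex (mF K d * M) 0 j = 0 := by
  by_cases hj : j < d + 1
  swap
  · rw [ex_col_out _ (by omega)]
  rw [ex_of_lt _ (by omega) hj, Matrix.mul_apply]
  apply Finset.sum_eq_zero
  intro b _
  simp [mF]

theorem ex_F_mul_succ (M : Matrix (Fin (d + 1)) (Fin (d + 1)) K) {i : ℕ} (j : ℕ) (hi : i < d) :
    ex (mF K d * M) (i + 1) j = ((i : K) + 1) * ex M i j := by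
  by_cases hj : j < d + 1
  swap
  · rw [ex_col_out _ (by omega), ex_col_out _ (by omega)]; simp
  rw [ex_of_lt _ (by omega) hj, ex_of_lt _ (by omega : i < d + 1) hj, Matrix.mul_apply,
      Finset.sum_eq_single (⟨i, by omega⟩ : Fin (d + 1))]
  · simp [mF]
  · intro b _ hb
    have : ¬ (i : ℕ) = b := fun h => hb (Fin.ext h.symm)
    simp [mF, this]
  · simp

theorem ex_mul_E_zero (M : Matrix (Fin (d + 1)) (Fin (d + 1)) K) (i : ℕ) :
    ex (M * mE K d) i 0 = 0 := by
  by_cases hi : i < d + 1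
  swap
  · rw [ex_row_out _ (by omega)]
  rw [ex_of_lt _ hi (by omega), Matrix.mul_apply]
  apply Finset.sum_eq_zero
  intro b _
  simp [mE]

theorem ex_mul_E_succ (M : Matrix (Fin (d + 1)) (Fin (d + 1)) K) (i j : ℕ) :
    ex (M * mE K d) i (j + 1) = ((d : K) - (j : K)) * ex M i j := by
  by_cases hi : i < d + 1
  swap
  · rw [ex_row_out _ (by omega), ex_row_out _ (by omega)]; simp
  by_cases hj : j < d
  · rw [ex_of_lt _ hi (by omega), ex_of_lt _ hi (by omega : j < d + 1), Matrix.mul_apply,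
      Finset.sum_eq_single (⟨j, by omega⟩ : Fin (d + 1))]
    · simp [mE, mul_comm]
    · intro b _ hb
      have : ¬ (j : ℕ) = b := fun h => hb (Fin.ext h.symm)
      simp [mE, this]
    · simp
  · rw [ex_col_out _ (by omega : d < j + 1)]
    rcases Nat.lt_or_ge d j with h | h
    · rw [ex_col_out _ h]; simp
    · have : j = d := by omega
      subst this; simp

theorem ex_mul_F (M : Matrix (Fin (d + 1)) (Fin (d + 1)) K) (i j : ℕ) :
    ex (M * mF K d) i j = ((j : K) + 1) * ex M i (j + 1) := by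
  by_cases hi : i < d + 1
  swap
  · rw [ex_row_out _ (by omega), ex_row_out _ (by omega)]; simp
  by_cases hj : j < d
  · rw [ex_of_lt _ hi (by omega), ex_of_lt _ hi (by omega : j + 1 < d + 1), Matrix.mul_apply,
      Finset.sum_eq_single (⟨j + 1, by omega⟩ : Fin (d + 1))]
    · simp [mF, mul_comm]
    · intro b _ hb
      have : ¬ (b : ℕ) = j + 1 := fun h => hb (Fin.ext h)
      simp [mF, this]
    · simp
  · rw [ex_col_out M (by omega : d < j + 1)]
    rcases Nat.lt_or_ge d j with h | h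
    · rw [ex_col_out _ h]; simp
    · have hid : j = d := by omega
      subst hid
      simp only [mul_zero]
      rw [ex_of_lt _ hi (by omega), Matrix.mul_apply]
      apply Finset.sum_eq_zero
      intro b _
      have : ¬ (b : ℕ) = j + 1 := by omega
      simp [mF, this]

theorem ex_H_mul (M : Matrix (Fin (d + 1)) (Fin (d + 1)) K) (i j : ℕ) :
    ex (kS K d * M) i j = ((d : K) - 2 * (i : K)) * ex M i j := by
  unfold ex
  split_ifs with h
  · simp [kS, Matrix.diagonal_mul]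
  · simp

theorem ex_mul_H (M : Matrix (Fin (d + 1)) (Fin (d + 1)) K) (i j : ℕ) :
    ex (M * kS K d) i j = ((d : K) - 2 * (j : K)) * ex M i j := by
  unfold ex
  split_ifs with h
  · simp [kS, Matrix.mul_diagonal, mul_comm]
  · simp

theorem ex_A_mul_zero (M : Matrix (Fin (d + 1)) (Fin (d + 1)) K) (j : ℕ) :
    ex (kA K d * M) 0 j = (d : K) * ex M 1 j := by
  rw [kA_eq, add_mul, ex_add, ex_E_mul, ex_F_mul_zero]; simp

theorem ex_A_mul_succ (M : Matrix (Fin (d + 1)) (Fin (d + 1)) K) {i : ℕ} (j : ℕ) (hi : i < d) :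
    ex (kA K d * M) (i + 1) j
      = ((d : K) - (i : K) - 1) * ex M (i + 2) j + ((i : K) + 1) * ex M i j := by
  rw [kA_eq, add_mul, ex_add, ex_E_mul, ex_F_mul_succ _ _ hi]; push_cast; ring_nf

theorem ex_mul_A_zero (M : Matrix (Fin (d + 1)) (Fin (d + 1)) K) (i : ℕ) :
    ex (M * kA K d) i 0 = ex M i 1 := by
  rw [kA_eq, mul_add, ex_add, ex_mul_E_zero, ex_mul_F]; simp

theorem ex_mul_A_succ (M : Matrix (Fin (d + 1)) (Fin (d + 1)) K) (i j : ℕ) :
    ex (M * kA K d) i (j + 1)
      = ((d : K) - (j : K)) * ex M i j + ((j : K) + 2) * ex M i (j + 2) := by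
  rw [kA_eq, mul_add, ex_add, ex_mul_E_succ, ex_mul_F]; push_cast; ring_nf

/-! ### sl2 relations -/

theorem ex_E {i j : ℕ} (hi : i ≤ d) (hj : j ≤ d) :
    ex (mE K d) i j = if j = i + 1 then (d : K) - (i : K) else 0 := by
  rw [ex_of_lt _ (by omega) (by omega)]; simp [mE]

theorem ex_F {i j : ℕ} (hi : i ≤ d) (hj : j ≤ d) :
    ex (mF K d) i j = if i = j + 1 then (j : K) + 1 else 0 := by
  rw [ex_of_lt _ (by omega) (by omega)]; simp [mF]

theorem ex_H {i j : ℕ} (hi : i ≤ d) (hj : j ≤ d) :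
    ex (kS K d) i j = if i = j then (d : K) - 2 * (i : K) else 0 := by
  rw [ex_of_lt _ (by omega) (by omega)]
  simp [kS, Matrix.diagonal_apply]

theorem comm_HE : kS K d * mE K d - mE K d * kS K d = (2 : K) • mE K d := by
  apply ext_ex
  intro i j hi hj
  rw [ex_sub, ex_H_mul, ex_mul_H, ex_smul, ex_E hi hj]
  split_ifs with h
  · subst h; push_cast; ring
  · ring

theorem comm_HF : kS K d * mF K d - mF K d * kS K d = (-2 : K) • mF K d := by
  apply ext_ex
  intro i j hi hj
  rw [ex_sub, ex_H_mul, ex_mul_H, ex_smul, ex_F hi hj]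
  split_ifs with h
  · subst h; push_cast; ring
  · ring

theorem comm_EF : mE K d * mF K d - mF K d * mE K d = kS K d := by
  apply ext_ex
  intro i j hi hj
  rw [ex_sub, ex_H hi hj]
  rcases i with _ | i
  · rw [ex_F_mul_zero, ex_E_mul]
    rcases Nat.eq_zero_or_pos d with hd | hd
    · subst hd
      have : j = 0 := by omega
      subst this
      simp
    · rw [ex_F (by omega) hj]
      rcases j with _ | j
      · simp
      · simp
  · rw [ex_F_mul_succ _ _ (by omega), ex_E_mul, ex_E (by omega) hj]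
    by_cases hid : i + 1 = d
    · subst hid
      rw [ex_row_out _ (by omega)]
      by_cases h : i + 1 = j
      · subst h; simp; ring
      · have h' : ¬ j = i + 1 := by omega
        simp [h, h']
    · rw [ex_F (by omega) hj]
      by_cases h : i + 1 = j
      · subst h; simp; ring
      · have h' : ¬ j = i + 1 := by omega
        simp [h, h']

end N704.LT
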