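import Pool.Agent.N704.LT.A

/-!
Unipotent conjugations and the sufficiency direction.
-/

namespace N704.LT

open Matrix

variable {K : Type*} [Field K] {d : ℕ}

/-- the upper unipotent matrix `exp (t e)` (up to normalisation). -/
def mU (K : Type*) [Field K] (d : ℕ) (t : K) : Matrix (Fin (d + 1)) (Fin (d + 1)) K :=
  Matrix.of fun i j =>
    if (i : ℕ) ≤ (j : ℕ) then ((Nat.choose (d - i) (j - i) : ℕ) : K) * t ^ ((j : ℕ) - i) else 0

theorem ex_U {t : K} {i j : ℕ} (hi : i ≤ d) (hj : j ≤ d) :
    ex (mU K d t) i j = if i ≤ j then ((Nat.choose (d - i) (j - i) : ℕ) : K) * t ^ (j - i)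
      else 0 := by
  rw [ex_of_lt _ (by omega) (by omega)]; simp [mU]

theorem ex_U_zero {t : K} {i j : ℕ} (h : j < i) : ex (mU K d t) i j = 0 := by
  by_cases hi : i ≤ d
  · rw [ex_U hi (by omega), if_neg (by omega)]
  · rw [ex_row_out _ (by omega)]

theorem ex_U_add {t : K} {i k : ℕ} (h : i ≤ d) :
    ex (mU K d t) i (i + k) = ((Nat.choose (d - i) k : ℕ) : K) * t ^ k := by
  by_cases hk : i + k ≤ d
  · rw [ex_U h hk, if_pos (by omega)]
    simp
  · rw [ex_col_out _ (by omega), Nat.choose_eq_zero_of_lt (by omega)]; simp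

theorem EU (t : K) : mE K d * mU K d t = mU K d t * mE K d := by
  apply ext_ex
  intro i j hi hj
  rw [ex_E_mul]
  rcases j with _ | j
  · rw [ex_mul_E_zero, ex_U_zero (by omega), mul_zero]
  · rw [ex_mul_E_succ]
    by_cases hij : j < i
    · rw [ex_U_zero (by omega), ex_U_zero hij]; simp
    · obtain ⟨k, rfl⟩ := Nat.exists_eq_add_of_le (not_lt.mp hij)
      rw [ex_U_add hi]
      have h1 : i + k + 1 = (i + 1) + k := by ring
      rw [h1, ex_U_add (by omega)]
      obtain ⟨n, hn⟩ := Nat.exists_eq_add_of_le (show i + k + 1 ≤ d by omega)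
      have e1 : d - (i + 1) = n + k := by omega
      have e2 : d - i = n + k + 1 := by omega
      have e3 : (d : K) = (i : K) + k + 1 + n := by rw [hn]; push_cast; ring
      rw [e1, e2, e3]
      have h := Nat.choose_mul_succ_eq (n + k) k
      have e4 : n + k + 1 - k = n + 1 := by omega
      rw [e4] at h
      have h' : (((n + k).choose k : ℕ) : K) * ((n : K) + k + 1)
          = (((n + k + 1).choose k : ℕ) : K) * ((n : K) + 1) := by
        have := congrArg (Nat.cast : ℕ → K) h
        push_cast at this
        exact this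
      push_cast
      linear_combination (t ^ k) * h'

theorem HU (t : K) : kS K d * mU K d t = mU K d t * (kS K d + (2 * t) • mE K d) := by
  apply ext_ex
  intro i j hi hj
  rw [ex_H_mul, mul_add, mul_smul_comm, ex_add, ex_smul, ex_mul_H]
  rcases j with _ | j
  · rw [ex_mul_E_zero]
    rcases i with _ | i
    · simp
    · rw [ex_U_zero (by omega)]; simp
  · rw [ex_mul_E_succ]
    by_cases hij : j < i
    · rcases Nat.lt_or_ge (j + 1) i with h | h
      · rw [ex_U_zero h, ex_U_zero hij]; simp
      · have : i = j + 1 := by omega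
        subst this
        rw [ex_U_zero hij]; push_cast; ring
    · obtain ⟨k, rfl⟩ := Nat.exists_eq_add_of_le (not_lt.mp hij)
      rw [ex_U_add hi]
      have h1 : i + k + 1 = i + (k + 1) := by ring
      rw [h1, ex_U_add (by omega)]
      obtain ⟨n, hn⟩ := Nat.exists_eq_add_of_le (show i + k + 1 ≤ d by omega)
      have e2 : d - i = n + k + 1 := by omega
      have e3 : (d : K) = (i : K) + k + 1 + n := by rw [hn]; push_cast; ring
      rw [e2, e3]
      have h := Nat.choose_succ_right_eq (n + k + 1) k
      have e4 : n + k + 1 - k = n + 1 := by omega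
      rw [e4] at h
      have h' : (((n + k + 1).choose (k + 1) : ℕ) : K) * ((k : K) + 1)
          = (((n + k + 1).choose k : ℕ) : K) * ((n : K) + 1) := by
        have := congrArg (Nat.cast : ℕ → K) h
        push_cast at this
        exact this
      push_cast
      rw [pow_succ]
      linear_combination (2 * t ^ k * t) * h'

theorem FU (t : K) : mF K d * mU K d t
    = mU K d t * (mF K d - t • kS K d - (t ^ 2) • mE K d) := by
  apply ext_ex
  intro i j hi hj
  rw [mul_sub, mul_sub, mul_smul_comm, mul_smul_comm, ex_sub, ex_sub, ex_smul, ex_smul,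
    ex_mul_H, ex_mul_F]
  -- lower part
  rcases Nat.lt_or_ge (j + 1) i with hlt | hge
  · obtain ⟨i, rfl⟩ : ∃ i', i = i' + 1 := ⟨i - 1, by omega⟩
    rw [ex_F_mul_succ _ _ (by omega), ex_U_zero (by omega : j < i), ex_U_zero hlt,
      ex_U_zero (by omega : j < i + 1)]
    rcases j with _ | j
    · rw [ex_mul_E_zero]; simp
    · rw [ex_mul_E_succ, ex_U_zero (by omega)]; simp
  rcases Nat.eq_or_lt_of_le hge with heq | hgt
  · -- i = j + 1
    subst heq
    rw [ex_F_mul_succ _ _ (by omega), ex_U_zero (by omega : j < j + 1)]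
    have h1 := ex_U_add (K := K) (t := t) (i := j) (k := 0) (d := d) (by omega)
    have h2 := ex_U_add (K := K) (t := t) (i := j + 1) (k := 0) (d := d) (by omega)
    simp only [add_zero, Nat.choose_zero_right, Nat.cast_one, pow_zero, mul_one] at h1 h2
    rw [h1, h2]
    rcases j with _ | j
    · rw [ex_mul_E_zero]; simp
    · rw [ex_mul_E_succ, ex_U_zero (by omega)]; simp
  have hij : i ≤ j := by omega
  rcases Nat.eq_or_lt_of_le hij with heq | hlt
  · -- i = j
    subst heq
    have h1 := ex_U_add (K := K) (t := t) (i := i) (k := 0) (d := d) hi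
    simp only [add_zero, Nat.choose_zero_right, Nat.cast_one, pow_zero, mul_one] at h1
    rw [ex_U_add hi, h1]
    rcases i with _ | i
    · rw [ex_F_mul_zero, ex_mul_E_zero]; simp; ring
    · rw [ex_F_mul_succ _ _ (by omega), ex_mul_E_succ, ex_U_zero (by omega : i < i + 1),
        ex_U_add (by omega : i ≤ d), Nat.choose_one_right, Nat.choose_one_right]
      obtain ⟨n, hn⟩ := Nat.exists_eq_add_of_le (show i + 1 ≤ d by omega)
      have e1 : d - i = n + 1 := by omega
      have e2 : d - (i + 1) = n := by omega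
      have e3 : (d : K) = (i : K) + 1 + n := by rw [hn]; push_cast; ring
      rw [e1, e2, e3]
      push_cast
      ring
  · obtain ⟨k, hk⟩ := Nat.exists_eq_add_of_lt hlt
    subst hk
    obtain ⟨n, hn⟩ := Nat.exists_eq_add_of_le (show i + k + 1 ≤ d by omega)
    have e2 : d - i = n + k + 1 := by omega
    have e3 : (d : K) = (i : K) + k + 1 + n := by rw [hn]; push_cast; ring
    have g1 := ex_U_add (K := K) (t := t) (i := i) (k := k + 2) (d := d) hi
    have g2 := ex_U_add (K := K) (t := t) (i := i) (k := k + 1) (d := d) hi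
    have g3 := ex_U_add (K := K) (t := t) (i := i) (k := k) (d := d) hi
    have a1 : i + (k + 2) = i + k + 1 + 1 := by ring
    have a2 : i + (k + 1) = i + k + 1 := by ring
    rw [a1, e2] at g1
    rw [a2, e2] at g2
    rw [e2] at g3
    rw [g1, g2, ex_mul_E_succ, g3]
    have h := Nat.choose_succ_right_eq (n + k + 1) k
    have e4 : n + k + 1 - k = n + 1 := by omega
    rw [e4] at h
    have h' : (((n + k + 1).choose (k + 1) : ℕ) : K) * ((k : K) + 1)
        = (((n + k + 1).choose k : ℕ) : K) * ((n : K) + 1) := by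
      have := congrArg (Nat.cast : ℕ → K) h
      push_cast at this
      exact this
    have q := Nat.choose_succ_right_eq (n + k + 1) (k + 1)
    have e5 : n + k + 1 - (k + 1) = n := by omega
    rw [e5] at q
    have q' : (((n + k + 1).choose (k + 2) : ℕ) : K) * ((k : K) + 2)
        = (((n + k + 1).choose (k + 1) : ℕ) : K) * (n : K) := by
      have : (((n + k + 1).choose (k + 1 + 1) * (k + 1 + 1) : ℕ) : K)
        = (((n + k + 1).choose (k + 1) * n : ℕ) : K) := by rw [q]
      push_cast at this
      rw [← this]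
      norm_num [add_assoc]
    rw [e3]
    rcases i with _ | i
    · rw [ex_F_mul_zero]
      push_cast
      rw [pow_succ, pow_succ]
      linear_combination -(t ^ k * t ^ 2) * h' - (t ^ k * t ^ 2) * q'
    · rw [ex_F_mul_succ _ _ (by omega)]
      have g4 := ex_U_add (K := K) (t := t) (i := i) (k := k + 2) (d := d) (by omega)
      have a4 : i + (k + 2) = i + 1 + k + 1 := by ring
      have e6 : d - i = n + k + 1 + 1 := by omega
      rw [a4, e6, Nat.choose_succ_succ] at g4
      rw [g4]
      push_cast
      rw [pow_succ, pow_succ]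
      linear_combination -(t ^ k * t ^ 2) * h' - (t ^ k * t ^ 2) * q'

theorem isUnit_U (t : K) : IsUnit (mU K d t) := by
  rw [Matrix.isUnit_iff_isUnit_det]
  have h : (mU K d t).BlockTriangular id := by
    intro i j hij
    have : ¬ ((i : ℕ) ≤ (j : ℕ)) := by
      have : j < i := hij
      exact not_le.mpr this
    simp only [mU, Matrix.of_apply, if_neg this]
  rw [Matrix.det_of_isUpperTriangular h]
  have : ∀ i : Fin (d + 1), mU K d t i i = 1 := by
    intro i
    simp [mU]
  simp [this]

/-- flipping a matrix along both diagonals -/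
def flip (M : Matrix (Fin (d + 1)) (Fin (d + 1)) K) : Matrix (Fin (d + 1)) (Fin (d + 1)) K :=
  M.submatrix Fin.rev Fin.rev

theorem flip_mul (M N : Matrix (Fin (d + 1)) (Fin (d + 1)) K) :
    flip (M * N) = flip M * flip N := by
  unfold flip
  exact (Matrix.submatrix_mul_equiv M N Fin.rev Fin.revPerm Fin.rev).symm

theorem flip_add (M N : Matrix (Fin (d + 1)) (Fin (d + 1)) K) :
    flip (M + N) = flip M + flip N := rfl

theorem flip_sub (M N : Matrix (Fin (d + 1)) (Fin (d + 1)) K) :
    flip (M - N) = flip M - flip N := rfl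

theorem flip_smul (c : K) (M : Matrix (Fin (d + 1)) (Fin (d + 1)) K) :
    flip (c • M) = c • flip M := rfl

theorem flip_E : flip (mE K d) = mF K d := by
  ext i j
  have hi := i.2
  have hj := j.2
  simp only [flip, Matrix.submatrix_apply, mE, mF, Matrix.of_apply, Fin.val_rev]
  by_cases h : (i : ℕ) = j + 1
  · have h' : d + 1 - ((j : ℕ) + 1) = d + 1 - ((i : ℕ) + 1) + 1 := by omega
    rw [if_pos h, if_pos h']
    have : d + 1 - ((i : ℕ) + 1) = d - i := by omega
    rw [this, Nat.cast_sub (by omega), h]
    push_cast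
    ring
  · have h' : ¬ (d + 1 - ((j : ℕ) + 1) = d + 1 - ((i : ℕ) + 1) + 1) := by omega
    rw [if_neg h, if_neg h']

omit [Field K] in
theorem flip_flip (M : Matrix (Fin (d + 1)) (Fin (d + 1)) K) : flip (flip M) = M := by
  ext i j; simp [flip]

theorem flip_F : flip (mF K d) = mE K d := by
  rw [← flip_E, flip_flip]

theorem flip_H : flip (kS K d) = - kS K d := by
  ext i j
  have hi := i.2
  have hj := j.2
  simp only [flip, Matrix.submatrix_apply, kS, Matrix.diagonal_apply, Fin.val_rev, Matrix.neg_apply]
  by_cases h : i = j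
  · subst h
    rw [if_pos rfl, if_pos rfl]
    have : d + 1 - ((i : ℕ) + 1) = d - i := by omega
    rw [this, Nat.cast_sub (by omega)]
    push_cast; ring
  · rw [if_neg h, if_neg (fun h' => h (Fin.rev_injective h'))]; simp

/-- lower unipotent matrix -/
def mV (K : Type*) [Field K] (d : ℕ) (s : K) : Matrix (Fin (d + 1)) (Fin (d + 1)) K :=
  flip (mU K d s)

theorem isUnit_V (s : K) : IsUnit (mV K d s) := by
  rw [Matrix.isUnit_iff_isUnit_det]
  have h : (mV K d s).det = (mU K d s).det :=
    Matrix.det_submatrix_equiv_self Fin.revPerm (mU K d s)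
  rw [h, ← Matrix.isUnit_iff_isUnit_det]
  exact isUnit_U s

theorem FV (s : K) : mF K d * mV K d s = mV K d s * mF K d := by
  have := congrArg flip (EU (d := d) s)
  rwa [flip_mul, flip_mul, flip_E] at this

theorem HV (s : K) : kS K d * mV K d s = mV K d s * (kS K d - (2 * s) • mF K d) := by
  have := congrArg flip (HU (d := d) s)
  rw [flip_mul, flip_mul, flip_add, flip_smul, flip_E, flip_H] at this
  have h2 : kS K d * mV K d s = -(-kS K d * flip (mU K d s)) := by
    rw [neg_mul, neg_neg]; rfl
  rw [h2, this, ← mul_neg, neg_add, neg_neg, ← sub_eq_add_neg]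
  rfl

theorem EV (s : K) : mE K d * mV K d s
    = mV K d s * (mE K d + s • kS K d - (s ^ 2) • mF K d) := by
  have := congrArg flip (FU (d := d) s)
  rw [flip_mul, flip_mul, flip_sub, flip_sub, flip_smul, flip_smul, flip_E, flip_H, flip_F] at this
  rw [mV, this]
  congr 1
  rw [smul_neg, sub_neg_eq_add]

/-- the element `a e + b f + c h` -/
def sl (K : Type*) [Field K] (d : ℕ) (a b c : K) : Matrix (Fin (d + 1)) (Fin (d + 1)) K :=
  a • mE K d + b • mF K d + c • kS K d

theorem sl_U (a b c t : K) :
    sl K d a b c * mU K d t = mU K d t * sl K d (a + 2 * t * c - t ^ 2 * b) b (c - t * b) := by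
  unfold sl
  simp only [add_mul, smul_mul_assoc, EU, FU, HU, mul_add, mul_sub, mul_smul_comm, smul_add,
    smul_sub, smul_smul, add_smul, sub_smul]
  module

theorem sl_V (a b c s : K) :
    sl K d a b c * mV K d s = mV K d s * sl K d a (b - 2 * s * c - s ^ 2 * a) (c + s * a) := by
  unfold sl
  simp only [add_mul, smul_mul_assoc, EV, FV, HV, mul_add, mul_sub, mul_smul_comm, smul_add,
    smul_sub, smul_smul, add_smul, sub_smul]
  module

end N704.LT
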