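import Pool.Agent.N704.LT.B

/-!
Sufficiency.
-/

namespace N704.LT

open Matrix

variable {K : Type*} [Field K] {d : ℕ}

theorem exists_root [IsAlgClosed K] [CharZero K] (a b c : K) (hN : c ^ 2 + a * b ≠ 0) :
    ∃ t : K, a + 2 * t * c - t ^ 2 * b = 0 ∧ c - t * b ≠ 0 := by
  have key : ∀ t : K, a + 2 * t * c - t ^ 2 * b = 0 → c - t * b ≠ 0 := by
    intro t ht h0
    apply hN
    linear_combination (c - t * b) * h0 + b * ht
  by_cases hb : b = 0
  · subst hb
    have hc : c ≠ 0 := by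
      intro h; subst h; simp at hN
    refine ⟨-a / (2 * c), ?_, ?_⟩
    · field_simp; ring
    · simpa using hc
  · obtain ⟨z, hz⟩ := IsAlgClosed.exists_pow_nat_eq (c ^ 2 + a * b) (n := 2) (by norm_num)
    have h1 : a + 2 * ((c + z) / b) * c - ((c + z) / b) ^ 2 * b = 0 := by
      field_simp
      linear_combination -hz
    exact ⟨(c + z) / b, h1, key _ h1⟩

theorem conj_of_mul {P M N : Matrix (Fin (d + 1)) (Fin (d + 1)) K} (hP : IsUnit P)
    (h : M * P = P * N) : P⁻¹ * M * P = N := by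
  rw [Matrix.mul_assoc, h, ← Matrix.mul_assoc,
    Matrix.nonsing_inv_mul _ ((Matrix.isUnit_iff_isUnit_det _).mp hP), Matrix.one_mul]

theorem diag_sl [IsAlgClosed K] [CharZero K] (d : ℕ) (a b c : K) (hN : c ^ 2 + a * b ≠ 0) :
    ∃ P : Matrix (Fin (d + 1)) (Fin (d + 1)) K, IsUnit P ∧ ∃ ν : K, ν ^ 2 = c ^ 2 + a * b ∧
      P⁻¹ * sl K d a b c * P = sl K d 0 0 ν ∧
      ∀ a' b' c' : K, ∃ α β γ : K, P⁻¹ * sl K d a' b' c' * P = sl K d α β γ ∧
        γ ^ 2 + α * β = c' ^ 2 + a' * b' ∧ 2 * ν * γ = 2 * c * c' + a * b' + b * a' := by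
  obtain ⟨t, ht, hc1⟩ := exists_root a b c hN
  set c1 := c - t * b with hc1def
  set s := b / (2 * c1) with hs
  have hs2 : 2 * s * c1 = b := by rw [hs]; field_simp
  have hU : IsUnit (mU K d t * mV K d s) := (isUnit_U t).mul (isUnit_V s)
  have hconj : ∀ a' b' c' : K, (mU K d t * mV K d s)⁻¹ * sl K d a' b' c' * (mU K d t * mV K d s)
      = sl K d (a' + 2 * t * c' - t ^ 2 * b')
        (b' - 2 * s * (c' - t * b') - s ^ 2 * (a' + 2 * t * c' - t ^ 2 * b'))
        ((c' - t * b') + s * (a' + 2 * t * c' - t ^ 2 * b')) := by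
    intro a' b' c'
    apply conj_of_mul hU
    rw [← Matrix.mul_assoc, sl_U, Matrix.mul_assoc, sl_V, Matrix.mul_assoc]
  refine ⟨mU K d t * mV K d s, hU, c1, ?_, ?_, ?_⟩
  · rw [hc1def]; linear_combination -b * ht
  · rw [hconj, ht]
    congr 1
    · linear_combination -hs2
    · simp [hc1def]
  · intro a' b' c'
    refine ⟨_, _, _, hconj a' b' c', ?_, ?_⟩
    · ring
    · have e1 : 2 * c1 * ((c' - t * b') + s * (a' + 2 * t * c' - t ^ 2 * b'))
        = 2 * c1 * (c' - t * b') + (2 * s * c1) * (a' + 2 * t * c' - t ^ 2 * b') := by ring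
      rw [e1, hs2, hc1def]
      linear_combination -b' * ht

theorem sl_apply (a b c : K) (i j : Fin (d + 1)) :
    sl K d a b c i j = a * (if (j : ℕ) = (i : ℕ) + 1 then (d : K) - ((i : ℕ) : K) else 0)
      + b * (if (i : ℕ) = (j : ℕ) + 1 then ((j : ℕ) : K) + 1 else 0)
      + c * (if i = j then (d : K) - 2 * ((i : ℕ) : K) else 0) := by
  simp [sl, mE, mF, kS, Matrix.diagonal_apply]

theorem irr_sl [CharZero K] (x a b c : K) (ha : a ≠ 0) (hb : b ≠ 0) :
    IrrTridiag (x • (1 : Matrix (Fin (d + 1)) (Fin (d + 1)) K) + sl K d a b c) := by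
  constructor
  · intro i j hij
    have h1 : ¬ (j : ℕ) = (i : ℕ) + 1 := by omega
    have h2 : ¬ (i : ℕ) = (j : ℕ) + 1 := by omega
    have h3 : ¬ i = j := by intro h; subst h; omega
    rw [Matrix.add_apply, Matrix.smul_apply, sl_apply, if_neg h1, if_neg h2, if_neg h3,
      Matrix.one_apply_ne h3]
    simp
  · intro i j hij
    have h3 : ¬ i = j := by intro h; subst h; omega
    have hj := j.2
    have hi := i.2
    rw [Matrix.add_apply, Matrix.smul_apply, sl_apply, if_neg h3, Matrix.one_apply_ne h3]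
    rcases hij with h | h
    · have h2 : ¬ (i : ℕ) = (j : ℕ) + 1 := by omega
      rw [if_pos h, if_neg h2]
      have : (d : K) - ((i : ℕ) : K) ≠ 0 := by
        rw [sub_ne_zero]; intro h'
        have : d = (i : ℕ) := by exact_mod_cast h'
        omega
      simpa using ⟨ha, this⟩
    · have h2 : ¬ (j : ℕ) = (i : ℕ) + 1 := by omega
      rw [if_pos h, if_neg h2]
      have : ((j : ℕ) : K) + 1 ≠ 0 := Nat.cast_add_one_ne_zero _
      simpa using ⟨hb, this⟩

theorem isDiag_sl (x c : K) :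
    (x • (1 : Matrix (Fin (d + 1)) (Fin (d + 1)) K) + sl K d 0 0 c).IsDiag := by
  intro i j hij
  rw [Matrix.add_apply, Matrix.smul_apply, sl_apply, if_neg hij, Matrix.one_apply_ne hij]
  simp

theorem conj_add_smul_one {P M : Matrix (Fin (d + 1)) (Fin (d + 1)) K} (hP : IsUnit P) (x : K) :
    P⁻¹ * (x • (1 : Matrix (Fin (d + 1)) (Fin (d + 1)) K) + M) * P
      = x • (1 : Matrix (Fin (d + 1)) (Fin (d + 1)) K) + P⁻¹ * M * P := by
  rw [Matrix.mul_add, Matrix.add_mul]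
  congr 1
  rw [Matrix.mul_smul, Matrix.smul_mul, Matrix.mul_one,
    Matrix.nonsing_inv_mul _ ((Matrix.isUnit_iff_isUnit_det _).mp hP)]

/-- The main sufficiency lemma. -/
theorem leonardAt_sl [IsAlgClosed K] [CharZero K] (x a b c y a1 b1 c1 z a2 b2 c2 : K)
    (hN : c ^ 2 + a * b ≠ 0)
    (h1 : (2 * c * c1 + a * b1 + b * a1) ^ 2 ≠ 4 * (c ^ 2 + a * b) * (c1 ^ 2 + a1 * b1))
    (h2 : (2 * c * c2 + a * b2 + b * a2) ^ 2 ≠ 4 * (c ^ 2 + a * b) * (c2 ^ 2 + a2 * b2)) :
    LeonardAt (x • (1 : Matrix (Fin (d + 1)) (Fin (d + 1)) K) + sl K d a b c)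
      (y • (1 : Matrix (Fin (d + 1)) (Fin (d + 1)) K) + sl K d a1 b1 c1)
      (z • (1 : Matrix (Fin (d + 1)) (Fin (d + 1)) K) + sl K d a2 b2 c2) := by
  obtain ⟨P, hP, ν, hν, hd, hall⟩ := diag_sl d a b c hN
  refine ⟨P, hP, ?_, ?_, ?_⟩
  · rw [conj_add_smul_one hP, hd]; exact isDiag_sl _ _
  · obtain ⟨α, β, γ, e1, e2, e3⟩ := hall a1 b1 c1
    rw [conj_add_smul_one hP, e1]
    have hαβ : α * β ≠ 0 := by
      intro h0
      apply h1
      rw [← e3, ← hν, ← e2, h0]; ring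
    exact irr_sl _ _ _ _ (left_ne_zero_of_mul hαβ) (right_ne_zero_of_mul hαβ)
  · obtain ⟨α, β, γ, e1, e2, e3⟩ := hall a2 b2 c2
    rw [conj_add_smul_one hP, e1]
    have hαβ : α * β ≠ 0 := by
      intro h0
      apply h2
      rw [← e3, ← hν, ← e2, h0]; ring
    exact irr_sl _ _ _ _ (left_ne_zero_of_mul hαβ) (right_ne_zero_of_mul hαβ)

/-- the matrix `e - f` -/
def mG (K : Type*) [Field K] (d : ℕ) : Matrix (Fin (d + 1)) (Fin (d + 1)) K := mE K d - mF K d

theorem generic_eq (x c1 c2 c3 : K) :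
    x • (1 : Matrix (Fin (d + 1)) (Fin (d + 1)) K) + c1 • kA K d + c2 • kS K d + c3 • mG K d
      = x • (1 : Matrix (Fin (d + 1)) (Fin (d + 1)) K) + sl K d (c1 + c3) (c1 - c3) c2 := by
  rw [kA_eq, mG, sl]
  module

theorem kA_eq_sl : kA K d
    = (0 : K) • (1 : Matrix (Fin (d + 1)) (Fin (d + 1)) K) + sl K d 1 1 0 := by
  rw [kA_eq, sl]; module

theorem kS_eq_sl : kS K d
    = (0 : K) • (1 : Matrix (Fin (d + 1)) (Fin (d + 1)) K) + sl K d 0 0 1 := by
  rw [sl]; module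

/-- Sufficiency for the generic family. -/
theorem triple_generic [IsAlgClosed K] [CharZero K] (x c1 c2 c3 : K)
    (h1 : c1 ^ 2 ≠ c3 ^ 2) (h2 : c2 ^ 2 ≠ c3 ^ 2) (h3 : c1 ^ 2 + c2 ^ 2 ≠ c3 ^ 2) :
    LeonardTriple (kA K d) (kS K d)
      (x • (1 : Matrix (Fin (d + 1)) (Fin (d + 1)) K) + c1 • kA K d + c2 • kS K d
        + c3 • mG K d) := by
  have four : (4 : K) ≠ 0 := by norm_num
  rw [generic_eq]
  refine ⟨?_, ?_, ?_⟩
  · rw [kA_eq_sl, kS_eq_sl]
    apply leonardAt_sl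
    · norm_num
    · norm_num
    · intro h; apply h2
      have h' : 4 * (c2 ^ 2 - c3 ^ 2) = 0 := by linear_combination -h
      linear_combination (mul_eq_zero.mp h').resolve_left four
  · rw [kA_eq_sl, kS_eq_sl]
    apply leonardAt_sl
    · norm_num
    · norm_num
    · intro h; apply h1
      have h' : 4 * (c1 ^ 2 - c3 ^ 2) = 0 := by linear_combination -h
      linear_combination (mul_eq_zero.mp h').resolve_left four
  · rw [kA_eq_sl, kS_eq_sl]
    apply leonardAt_sl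
    · intro h; apply h3; linear_combination h
    · intro h; apply h2
      have h' : 4 * (c2 ^ 2 - c3 ^ 2) = 0 := by linear_combination -h
      linear_combination (mul_eq_zero.mp h').resolve_left four
    · intro h; apply h1
      have h' : 4 * (c1 ^ 2 - c3 ^ 2) = 0 := by linear_combination -h
      linear_combination (mul_eq_zero.mp h').resolve_left four

end N704.LT
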