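import Pool.Agent.N704.LT.C

/-!
The exceptional family for `d = 2`.
-/

namespace N704.LT

open Matrix

variable {K : Type*} [Field K]

theorem kA_two : kA K 2 = !![0, 2, 0; 1, 0, 1; 0, 2, 0] := by
  ext i j
  fin_cases i <;> fin_cases j <;> simp [kA] <;> norm_num

theorem kS_two : kS K 2 = !![2, 0, 0; 0, 0, 0; 0, 0, -2] := by
  ext i j
  fin_cases i <;> fin_cases j <;> simp [kS]; norm_num

theorem mG_two : mG K 2 = !![0, 2, 0; -1, 0, 1; 0, -2, 0] := by
  ext i j
  fin_cases i <;> fin_cases j <;> simp [mG, mE, mF] <;> norm_num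

theorem exotic_two (x c3 c4 : K) :
    x • (1 : Matrix (Fin (2 + 1)) (Fin (2 + 1)) K) + c3 • mG K 2
      + c4 • (kA K 2 * kS K 2 + kS K 2 * kA K 2)
    = !![x, 2 * (c3 + 2 * c4), 0; -(c3 - 2 * c4), x, c3 - 2 * c4; 0, -(2 * (c3 + 2 * c4)), x] := by
  rw [kA_two, kS_two, mG_two]
  ext i j
  fin_cases i <;> fin_cases j <;> simp [Matrix.mul_apply, Fin.sum_univ_three] <;> ring

theorem irr_three {a b c d e f g : K} (h1 : b ≠ 0) (h2 : c ≠ 0) (h3 : e ≠ 0) (h4 : f ≠ 0) :
    IrrTridiag (d := 2) !![a, b, 0; c, d, e; 0, f, g] := by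
  constructor
  · intro i j hij
    fin_cases i <;> fin_cases j <;> simp at hij ⊢
  · intro i j hij
    fin_cases i <;> fin_cases j <;> simp at hij ⊢ <;> assumption

theorem diag_three {a b c : K} :
    Matrix.IsDiag (!![a, 0, 0; 0, b, 0; 0, 0, c] : Matrix (Fin (2 + 1)) (Fin (2 + 1)) K) := by
  intro i j hij
  fin_cases i <;> fin_cases j <;> simp at hij ⊢

theorem triple_exotic [IsAlgClosed K] [CharZero K] (x c3 c4 : K)
    (h : c3 ^ 2 ≠ 4 * c4 ^ 2) :
    LeonardTriple (kA K 2) (kS K 2)
      (x • (1 : Matrix (Fin (2 + 1)) (Fin (2 + 1)) K) + c3 • mG K 2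
        + c4 • (kA K 2 * kS K 2 + kS K 2 * kA K 2)) := by
  rw [exotic_two]
  set u := c3 + 2 * c4 with hu
  set v := c3 - 2 * c4 with hv
  have huv : u * v ≠ 0 := by
    intro h0; apply h; rw [hu, hv] at h0; linear_combination h0
  have hu0 : u ≠ 0 := left_ne_zero_of_mul huv
  have hv0 : v ≠ 0 := right_ne_zero_of_mul huv
  have two : (2 : K) ≠ 0 := by norm_num
  have htwou : 2 * u ≠ 0 := mul_ne_zero two hu0
  clear_value u v
  refine ⟨?_, ?_, ?_⟩
  · -- `A` diagonal
    have hP : IsUnit (!![1, 1, 1; 1, 0, -1; 1, -1, 1] : Matrix (Fin (2 + 1)) (Fin (2 + 1)) K) := by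
      rw [Matrix.isUnit_iff_isUnit_det, Matrix.det_fin_three, isUnit_iff_ne_zero]
      simp; norm_num
    refine ⟨_, hP, ?_, ?_, ?_⟩
    · rw [conj_of_mul (N := !![2, 0, 0; 0, 0, 0; 0, 0, -2]) hP]
      · exact diag_three
      · rw [kA_two]
        ext i j
        fin_cases i <;> fin_cases j <;> simp [Matrix.mul_apply, Fin.sum_univ_three] <;> norm_num
    · rw [conj_of_mul (N := !![0, 1, 0; 2, 0, 2; 0, 1, 0]) hP]
      · exact irr_three one_ne_zero two two one_ne_zero
      · rw [kS_two]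
        ext i j
        fin_cases i <;> fin_cases j <;> simp [Matrix.mul_apply, Fin.sum_univ_three] <;> norm_num
    · rw [conj_of_mul (N := !![x, -v, 0; 2 * u, x, -(2 * u); 0, v, x]) hP]
      · exact irr_three (neg_ne_zero.mpr hv0) htwou (neg_ne_zero.mpr htwou) hv0
      · ext i j
        fin_cases i <;> fin_cases j <;> simp [Matrix.mul_apply, Fin.sum_univ_three] <;> ring
  · -- `A^*` diagonal
    refine ⟨1, isUnit_one, ?_, ?_, ?_⟩
    · simp only [inv_one, Matrix.one_mul, Matrix.mul_one]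
      rw [kS_two]; exact diag_three
    · simp only [inv_one, Matrix.one_mul, Matrix.mul_one]
      rw [kA_two]; exact irr_three two one_ne_zero one_ne_zero two
    · simp only [inv_one, Matrix.one_mul, Matrix.mul_one]
      exact irr_three htwou (neg_ne_zero.mpr hv0) hv0 (neg_ne_zero.mpr htwou)
  · -- third matrix diagonal
    obtain ⟨l, hl⟩ := IsAlgClosed.exists_pow_nat_eq (-(4 * (u * v))) (n := 2) (by norm_num)
    have hl0 : l ≠ 0 := by
      intro h0
      rw [h0] at hl
      apply huv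
      have : 4 * (u * v) = 0 := by linear_combination hl
      exact (mul_eq_zero.mp this).resolve_left (by norm_num)
    have hP : IsUnit (!![2 * u, 1, 2 * u; l, 0, -l; -(2 * u), 1, -(2 * u)] :
        Matrix (Fin (2 + 1)) (Fin (2 + 1)) K) := by
      rw [Matrix.isUnit_iff_isUnit_det, Matrix.det_fin_three, isUnit_iff_ne_zero]
      have : (8 : K) * u * l ≠ 0 := mul_ne_zero (mul_ne_zero (by norm_num) hu0) hl0
      intro h0
      apply this
      rw [← h0]
      simp
      ring
    refine ⟨_, hP, ?_, ?_, ?_⟩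
    · rw [conj_of_mul (N := !![x + l, 0, 0; 0, x, 0; 0, 0, x - l]) hP]
      · exact diag_three
      · ext i j
        fin_cases i <;> fin_cases j <;> simp [Matrix.mul_apply, Fin.sum_univ_three] <;>
          first | ring1 | linear_combination -hl | linear_combination hl
    · rw [conj_of_mul (N := !![0, 1 / l, 0; 2 * l, 0, -(2 * l); 0, -(1 / l), 0]) hP]
      · exact irr_three (one_div_ne_zero hl0) (mul_ne_zero two hl0)
          (neg_ne_zero.mpr (mul_ne_zero two hl0)) (neg_ne_zero.mpr (one_div_ne_zero hl0))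
      · rw [kA_two]
        ext i j
        fin_cases i <;> fin_cases j <;> simp [Matrix.mul_apply, Fin.sum_univ_three] <;>
          field_simp <;> ring
    · rw [conj_of_mul (N := !![0, 1 / (2 * u), 0; 4 * u, 0, 4 * u; 0, 1 / (2 * u), 0]) hP]
      · have h4 : 4 * u ≠ 0 := mul_ne_zero (by norm_num) hu0
        exact irr_three (one_div_ne_zero htwou) h4 h4 (one_div_ne_zero htwou)
      · rw [kS_two]
        ext i j
        fin_cases i <;> fin_cases j <;> simp [Matrix.mul_apply, Fin.sum_univ_three] <;>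
          field_simp <;> ring

end N704.LT
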