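import Pool.Agent.N704.LT.C

/-!
Necessity, part 1: brackets, the cubic relations, the space `W`.
-/

namespace N704.LT

open Matrix

variable {K : Type*} [Field K] {d : ℕ}

/-- `[A,[A,X]]` -/
def dbl (A X : Matrix (Fin (d + 1)) (Fin (d + 1)) K) : Matrix (Fin (d + 1)) (Fin (d + 1)) K :=
  A * (A * X - X * A) - (A * X - X * A) * A

/-- `(ad A)^3 X - 4 (ad A) X` -/
def Phi (A X : Matrix (Fin (d + 1)) (Fin (d + 1)) K) : Matrix (Fin (d + 1)) (Fin (d + 1)) K :=
  A * (A * (A * X)) - (3 : K) • (A * (A * (X * A))) + (3 : K) • (A * (X * A * A)) - X * A * A * A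
    - (4 : K) • (A * X - X * A)

theorem Phi_eq (A X : Matrix (Fin (d + 1)) (Fin (d + 1)) K) :
    Phi A X = A * dbl A X - dbl A X * A - (4 : K) • (A * X - X * A) := by
  unfold Phi dbl
  simp only [mul_sub, sub_mul, Matrix.mul_assoc]
  module

theorem comm_AH : kA K d * kS K d - kS K d * kA K d = (-2 : K) • mG K d := by
  have h1 := comm_HE (K := K) (d := d)
  have h2 := comm_HF (K := K) (d := d)
  have : kA K d * kS K d - kS K d * kA K d
      = -(kS K d * mE K d - mE K d * kS K d) - (kS K d * mF K d - mF K d * kS K d) := by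
    rw [kA_eq]; noncomm_ring
  rw [this, h1, h2, mG]; module

theorem comm_AG : kA K d * mG K d - mG K d * kA K d = (-2 : K) • kS K d := by
  have h1 := comm_EF (K := K) (d := d)
  have : kA K d * mG K d - mG K d * kA K d
      = -(mE K d * mF K d - mF K d * mE K d) - (mE K d * mF K d - mF K d * mE K d) := by
    rw [kA_eq, mG]; noncomm_ring
  rw [this, h1]; module

theorem comm_HG : kS K d * mG K d - mG K d * kS K d = (2 : K) • kA K d := by
  have h1 := comm_HE (K := K) (d := d)
  have h2 := comm_HF (K := K) (d := d)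
  have : kS K d * mG K d - mG K d * kS K d
      = (kS K d * mE K d - mE K d * kS K d) - (kS K d * mF K d - mF K d * kS K d) := by
    rw [mG]; noncomm_ring
  rw [this, h1, h2, kA_eq]; module

theorem dbl_AH : dbl (kA K d) (kS K d) = (4 : K) • kS K d := by
  unfold dbl
  rw [comm_AH, mul_smul_comm, smul_mul_assoc, ← smul_sub, comm_AG]; module

theorem dbl_HA : dbl (kS K d) (kA K d) = (4 : K) • kA K d := by
  have h : kS K d * kA K d - kA K d * kS K d = (2 : K) • mG K d := by
    rw [← neg_sub, comm_AH]; module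
  unfold dbl
  rw [h, mul_smul_comm, smul_mul_assoc, ← smul_sub, comm_HG]; module

theorem dbl_AG : dbl (kA K d) (mG K d) = (4 : K) • mG K d := by
  unfold dbl
  rw [comm_AG, mul_smul_comm, smul_mul_assoc, ← smul_sub, comm_AH]; module

theorem dbl_HG : dbl (kS K d) (mG K d) = (4 : K) • mG K d := by
  have h : kS K d * kA K d - kA K d * kS K d = (2 : K) • mG K d := by
    rw [← neg_sub, comm_AH]; module
  unfold dbl
  rw [comm_HG, mul_smul_comm, smul_mul_assoc, ← smul_sub, h]; module

theorem dbl_self (A : Matrix (Fin (d + 1)) (Fin (d + 1)) K) : dbl A A = 0 := by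
  unfold dbl; simp

theorem dbl_one (A : Matrix (Fin (d + 1)) (Fin (d + 1)) K) : dbl A 1 = 0 := by
  unfold dbl; simp

theorem dbl_add (A X Y : Matrix (Fin (d + 1)) (Fin (d + 1)) K) :
    dbl A (X + Y) = dbl A X + dbl A Y := by
  unfold dbl; noncomm_ring

theorem dbl_smul (c : K) (A X : Matrix (Fin (d + 1)) (Fin (d + 1)) K) :
    dbl A (c • X) = c • dbl A X := by
  unfold dbl
  simp only [mul_smul_comm, smul_mul_assoc, ← smul_sub]

theorem dbl_mul_left (A X : Matrix (Fin (d + 1)) (Fin (d + 1)) K) :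
    dbl A (A * X) = A * dbl A X := by
  unfold dbl; noncomm_ring

theorem dbl_mul_right (A X : Matrix (Fin (d + 1)) (Fin (d + 1)) K) :
    dbl A (X * A) = dbl A X * A := by
  unfold dbl; noncomm_ring

/-- the anticommutator `A A^* + A^* A`. -/
def mQ (K : Type*) [Field K] (d : ℕ) : Matrix (Fin (d + 1)) (Fin (d + 1)) K :=
  kA K d * kS K d + kS K d * kA K d

theorem dbl_AQ : dbl (kA K d) (mQ K d) = (4 : K) • mQ K d := by
  rw [mQ, dbl_add, dbl_mul_left, dbl_mul_right, dbl_AH, mul_smul_comm, smul_mul_assoc, smul_add]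

theorem dbl_HQ : dbl (kS K d) (mQ K d) = (4 : K) • mQ K d := by
  rw [mQ, dbl_add, dbl_mul_left, dbl_mul_right, dbl_HA, mul_smul_comm, smul_mul_assoc, smul_add]

/-- the general element of the five-dimensional space -/
def mW (K : Type*) [Field K] (d : ℕ) (c0 c1 c2 c3 c4 : K) :
    Matrix (Fin (d + 1)) (Fin (d + 1)) K :=
  c0 • (1 : Matrix (Fin (d + 1)) (Fin (d + 1)) K) + c1 • kA K d + c2 • kS K d + c3 • mG K d
    + c4 • mQ K d

theorem dbl_AW (c0 c1 c2 c3 c4 : K) : dbl (kA K d) (mW K d c0 c1 c2 c3 c4)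
    = (4 : K) • (mW K d c0 c1 c2 c3 c4 - c0 • (1 : Matrix (Fin (d + 1)) (Fin (d + 1)) K)
      - c1 • kA K d) := by
  unfold mW
  simp only [dbl_add, dbl_smul, dbl_one, dbl_self, dbl_AH, dbl_AG, dbl_AQ]
  module

theorem dbl_HW (c0 c1 c2 c3 c4 : K) : dbl (kS K d) (mW K d c0 c1 c2 c3 c4)
    = (4 : K) • (mW K d c0 c1 c2 c3 c4 - c0 • (1 : Matrix (Fin (d + 1)) (Fin (d + 1)) K)
      - c2 • kS K d) := by
  unfold mW
  simp only [dbl_add, dbl_smul, dbl_one, dbl_self, dbl_HA, dbl_HG, dbl_HQ]
  module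

theorem Phi_AW (c0 c1 c2 c3 c4 : K) : Phi (kA K d) (mW K d c0 c1 c2 c3 c4) = 0 := by
  rw [Phi_eq, dbl_AW]
  simp only [mul_smul_comm, smul_mul_assoc, mul_sub, sub_mul, mul_one, one_mul]
  module

theorem Phi_sub (A X Y : Matrix (Fin (d + 1)) (Fin (d + 1)) K) :
    Phi A (X - Y) = Phi A X - Phi A Y := by
  unfold Phi
  simp only [mul_sub, sub_mul, smul_sub]
  abel

/-! ### columns -/

/-- the first `m` columns vanish -/
def Zc (m : ℕ) (M : Matrix (Fin (d + 1)) (Fin (d + 1)) K) : Prop :=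
  ∀ i j, j < m → ex M i j = 0

theorem Zc.mono {m n : ℕ} {M : Matrix (Fin (d + 1)) (Fin (d + 1)) K} (h : Zc n M) (hmn : m ≤ n) :
    Zc m M := fun i j hj => h i j (by omega)

theorem Zc.left {m : ℕ} {M : Matrix (Fin (d + 1)) (Fin (d + 1)) K} (h : Zc m M) :
    Zc m (kA K d * M) := by
  intro i j hj
  rcases i with _ | i
  · rw [ex_A_mul_zero, h _ _ hj, mul_zero]
  · by_cases hi : i < d
    · rw [ex_A_mul_succ _ _ hi, h _ _ hj, h _ _ hj]; simp
    · rw [ex_row_out _ (by omega)]

theorem Zc.right {m : ℕ} {M : Matrix (Fin (d + 1)) (Fin (d + 1)) K} (h : Zc (m + 1) M) :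
    Zc m (M * kA K d) := by
  intro i j hj
  rcases j with _ | j
  · rw [ex_mul_A_zero, h _ _ (by omega)]
  · rw [ex_mul_A_succ, h _ _ (by omega), h _ _ (by omega)]; simp

theorem Zc.next {m : ℕ} {M : Matrix (Fin (d + 1)) (Fin (d + 1)) K} (h : Zc (m + 1) M) (i : ℕ) :
    ex (M * kA K d) i m = ((m : K) + 1) * ex M i (m + 1) := by
  rcases m with _ | m
  · rw [ex_mul_A_zero]; simp
  · rw [ex_mul_A_succ, h _ _ (by omega)]; push_cast; ring

theorem cols_zero [CharZero K] {X : Matrix (Fin (d + 1)) (Fin (d + 1)) K}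
    (hX : Phi (kA K d) X = 0) (h3 : Zc 3 X) : X = 0 := by
  have key : ∀ n, Zc (n + 3) X := by
    intro n
    induction n with
    | zero => simpa using h3
    | succ k ih =>
      intro i j hj
      rcases Nat.lt_or_ge j (k + 3) with h | h
      · exact ih i j h
      have hj' : j = k + 3 := by omega
      subst hj'
      have hXA : Zc (k + 2) (X * kA K d) := ih.right
      have hXAA : Zc (k + 1) (X * kA K d * kA K d) := hXA.right
      have e := congrArg (fun M => ex M i k) hX
      simp only [Phi, ex_sub, ex_add, ex_smul, ex_zero] at e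
      rw [ih.left.left.left i k (by omega), hXA.left.left i k (by omega),
        hXAA.left i k (by omega), ih.left i k (by omega), hXA i k (by omega),
        hXAA.next, hXA.next, ih.next] at e
      have h1 : ((k : K) + 1) ≠ 0 := Nat.cast_add_one_ne_zero k
      have h2 : (((k + 1 : ℕ) : K) + 1) ≠ 0 := Nat.cast_add_one_ne_zero (k + 1)
      have h3' : (((k + 2 : ℕ) : K) + 1) ≠ 0 := Nat.cast_add_one_ne_zero (k + 2)
      have e' : ((k : K) + 1) * ((((k + 1 : ℕ) : K) + 1) *
          ((((k + 2 : ℕ) : K) + 1) * ex X i (k + 3))) = 0 := by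
        linear_combination -e
      rcases mul_eq_zero.mp e' with h | h
      · exact absurd h h1
      rcases mul_eq_zero.mp h with h | h
      · exact absurd h h2
      rcases mul_eq_zero.mp h with h | h
      · exact absurd h h3'
      exact h
  apply ext_ex
  intro i j hi hj
  rw [ex_zero]
  exact key j i j (by omega)

end N704.LT
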