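import Pool.Agent.N704.LT.E

/-!
Necessity, part 2: the five-dimensional space.
-/

set_option linter.unusedSimpArgs false

namespace N704.LT

open Matrix

variable {K : Type*} [Field K] {d : ℕ}

theorem ex_A {i j : ℕ} (hi : i ≤ d) (hj : j ≤ d) :
    ex (kA K d) i j = (if j = i + 1 then (d : K) - (i : K) else 0)
      + (if i = j + 1 then (j : K) + 1 else 0) := by
  rw [kA_eq, ex_add, ex_E hi hj, ex_F hi hj]

theorem ex_G {i j : ℕ} (hi : i ≤ d) (hj : j ≤ d) :
    ex (mG K d) i j = (if j = i + 1 then (d : K) - (i : K) else 0)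
      - (if i = j + 1 then (j : K) + 1 else 0) := by
  rw [mG, ex_sub, ex_E hi hj, ex_F hi hj]

theorem ex_Q (i j : ℕ) :
    ex (mQ K d) i j = (((d : K) - 2 * (j : K)) + ((d : K) - 2 * (i : K))) * ex (kA K d) i j := by
  rw [mQ, ex_add, ex_mul_H, ex_H_mul]; ring

/-- tridiagonality in terms of `ex` -/
def Tri (X : Matrix (Fin (d + 1)) (Fin (d + 1)) K) : Prop :=
  ∀ i j : ℕ, i + 1 < j ∨ j + 1 < i → ex X i j = 0

theorem Tri_W (c0 c1 c2 c3 c4 : K) : Tri (mW K d c0 c1 c2 c3 c4) := by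
  intro i j hij
  by_cases hi : i ≤ d
  swap
  · exact ex_row_out _ (by omega)
  by_cases hj : j ≤ d
  swap
  · exact ex_col_out _ (by omega)
  have h1 : ¬ j = i + 1 := by omega
  have h2 : ¬ i = j + 1 := by omega
  have h3 : ¬ i = j := by omega
  simp [mW, ex_add, ex_smul, ex_Q, ex_one hi, ex_A hi hj, ex_G hi hj, ex_H hi hj, h1, h2, h3]

theorem mem_W [CharZero K] (hd : 2 ≤ d) {X : Matrix (Fin (d + 1)) (Fin (d + 1)) K}
    (hX : Phi (kA K d) X = 0) (htri : Tri X) :
    ∃ c0 c1 c2 c3 c4 : K, X = mW K d c0 c1 c2 c3 c4 := by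
  have hd0 : (d : K) ≠ 0 := Nat.cast_ne_zero.mpr (by omega)
  have hd1 : (d : K) - 1 ≠ 0 := by
    rw [sub_ne_zero]; intro h
    have : d = 1 := by exact_mod_cast h
    omega
  obtain ⟨q, hq⟩ : ∃ q : K, q = (ex X 0 1 / d - ex X 1 2 / (d - 1)) / 4 := ⟨_, rfl⟩
  obtain ⟨p, hp⟩ : ∃ p : K, p = ex X 0 1 / d - (2 * d - 2) * q := ⟨_, rfl⟩
  obtain ⟨r, hr⟩ : ∃ r : K, r = ex X 1 0 - (2 * d - 2) * q := ⟨_, rfl⟩
  obtain ⟨c2, hc2⟩ : ∃ c2 : K, c2 = (ex X 0 0 - ex X 1 1) / 2 := ⟨_, rfl⟩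
  refine ⟨ex X 0 0 - d * c2, (p + r) / 2, c2, (p - r) / 2, q, ?_⟩
  set W := mW K d (ex X 0 0 - d * c2) ((p + r) / 2) c2 ((p - r) / 2) q with hW
  have htriY : Tri (X - W) := by
    intro i j hij
    rw [ex_sub, htri i j hij, hW, Tri_W _ _ _ _ _ i j hij, sub_zero]
  have hPhiY : Phi (kA K d) (X - W) = 0 := by
    rw [Phi_sub, hX, hW, Phi_AW, sub_zero]
  have w00 : ex W 0 0 = ex X 0 0 := by
    simp only [hW, mW, ex_add, ex_smul, ex_Q, ex_one (Nat.zero_le d), ex_A (Nat.zero_le d)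
      (Nat.zero_le d), ex_G (Nat.zero_le d) (Nat.zero_le d), ex_H (Nat.zero_le d) (Nat.zero_le d)]
    simp
    ring
  have w11 : ex W 1 1 = ex X 1 1 := by
    have h1 : 1 ≤ d := by omega
    simp only [hW, mW, ex_add, ex_smul, ex_Q, ex_one h1, ex_A h1 h1, ex_G h1 h1, ex_H h1 h1]
    simp [hc2]
    ring
  have w01 : ex W 0 1 = ex X 0 1 := by
    have h1 : 1 ≤ d := by omega
    have h0 : 0 ≤ d := by omega
    simp only [hW, mW, ex_add, ex_smul, ex_Q, ex_one h0, ex_A h0 h1, ex_G h0 h1, ex_H h0 h1]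
    simp
    rw [hp]
    field_simp
    ring
  have w10 : ex W 1 0 = ex X 1 0 := by
    have h1 : 1 ≤ d := by omega
    have h0 : 0 ≤ d := by omega
    simp only [hW, mW, ex_add, ex_smul, ex_Q, ex_one h1, ex_A h1 h0, ex_G h1 h0, ex_H h1 h0]
    simp
    rw [hr]
    ring
  have w12 : ex W 1 2 = ex X 1 2 := by
    have h1 : 1 ≤ d := by omega
    simp only [hW, mW, ex_add, ex_smul, ex_Q, ex_one h1, ex_A h1 hd, ex_G h1 hd, ex_H h1 hd]
    simp
    have e : (p + r) / 2 * ((d : K) - 1) + (p - r) / 2 * ((d : K) - 1)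
        + q * ((d - 2 * 2 + (d - 2)) * (d - 1)) = (d - 1) * (p + (2 * d - 6) * q) := by ring
    rw [e, hp]
    have e2 : (ex X 0 1 / (d : K) - (2 * d - 2) * q + (2 * d - 6) * q)
        = ex X 0 1 / d - 4 * q := by ring
    rw [e2, hq]
    field_simp
    ring
  obtain ⟨Y, hY⟩ : ∃ Y, Y = X - W := ⟨_, rfl⟩
  rw [← hY] at htriY hPhiY
  have y00 : ex Y 0 0 = 0 := by rw [hY, ex_sub, w00, sub_self]
  have y11 : ex Y 1 1 = 0 := by rw [hY, ex_sub, w11, sub_self]
  have y01 : ex Y 0 1 = 0 := by rw [hY, ex_sub, w01, sub_self]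
  have y10 : ex Y 1 0 = 0 := by rw [hY, ex_sub, w10, sub_self]
  have y12 : ex Y 1 2 = 0 := by rw [hY, ex_sub, w12, sub_self]
  have A0 : ∀ (M : Matrix (Fin (d + 1)) (Fin (d + 1)) K) (j : ℕ),
      ex (kA K d * M) 0 j = (d : K) * ex M 1 j := fun M j => ex_A_mul_zero M j
  have A1 : ∀ (M : Matrix (Fin (d + 1)) (Fin (d + 1)) K) (j : ℕ),
      ex (kA K d * M) 1 j = ((d : K) - 1) * ex M 2 j + ex M 0 j := by
    intro M j
    have := ex_A_mul_succ M j (show 0 < d by omega)
    simpa using this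
  have A2 : ∀ (M : Matrix (Fin (d + 1)) (Fin (d + 1)) K) (j : ℕ),
      ex (kA K d * M) 2 j = ((d : K) - 2) * ex M 3 j + 2 * ex M 1 j := by
    intro M j
    have := ex_A_mul_succ M j (show 1 < d by omega)
    rw [this]; push_cast; ring
  have R0 : ∀ (M : Matrix (Fin (d + 1)) (Fin (d + 1)) K) (i : ℕ),
      ex (M * kA K d) i 0 = ex M i 1 := fun M i => ex_mul_A_zero M i
  have R1 : ∀ (M : Matrix (Fin (d + 1)) (Fin (d + 1)) K) (i : ℕ),
      ex (M * kA K d) i 1 = (d : K) * ex M i 0 + 2 * ex M i 2 := by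
    intro M i
    have := ex_mul_A_succ M i 0
    simpa using this
  have R2 : ∀ (M : Matrix (Fin (d + 1)) (Fin (d + 1)) K) (i : ℕ),
      ex (M * kA K d) i 2 = ((d : K) - 1) * ex M i 1 + 3 * ex M i 3 := by
    intro M i
    have := ex_mul_A_succ M i 1
    rw [this]; push_cast; ring
  have R3 : ∀ (M : Matrix (Fin (d + 1)) (Fin (d + 1)) K) (i : ℕ),
      ex (M * kA K d) i 3 = ((d : K) - 2) * ex M i 2 + 4 * ex M i 4 := by
    intro M i
    have := ex_mul_A_succ M i 2
    rw [this]; push_cast; ring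
  have R4 : ∀ (M : Matrix (Fin (d + 1)) (Fin (d + 1)) K) (i : ℕ),
      ex (M * kA K d) i 4 = ((d : K) - 3) * ex M i 3 + 5 * ex M i 5 := by
    intro M i
    have := ex_mul_A_succ M i 3
    rw [this]; push_cast; ring
  have e00 := congrArg (fun M => ex M 0 0) hPhiY
  have e01 := congrArg (fun M => ex M 0 1) hPhiY
  have e02 := congrArg (fun M => ex M 0 2) hPhiY
  have e20 := congrArg (fun M => ex M 2 0) hPhiY
  have z02 : ex Y 0 2 = 0 := htriY 0 2 (by omega)
  have z03 : ex Y 0 3 = 0 := htriY 0 3 (by omega)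
  have z04 : ex Y 0 4 = 0 := htriY 0 4 (by omega)
  have z05 : ex Y 0 5 = 0 := htriY 0 5 (by omega)
  have z13 : ex Y 1 3 = 0 := htriY 1 3 (by omega)
  have z14 : ex Y 1 4 = 0 := htriY 1 4 (by omega)
  have z20 : ex Y 2 0 = 0 := htriY 2 0 (by omega)
  have z24 : ex Y 2 4 = 0 := htriY 2 4 (by omega)
  have z30 : ex Y 3 0 = 0 := htriY 3 0 (by omega)
  have z31 : ex Y 3 1 = 0 := htriY 3 1 (by omega)
  have z40 : ex Y 4 0 = 0 := htriY 4 0 (by omega)
  have z41 : ex Y 4 1 = 0 := htriY 4 1 (by omega)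
  have z42 : ex Y 4 2 = 0 := htriY 4 2 (by omega)
  have yA40 : ex (kA K d * Y) 4 0 = 0 := by
    have hz : Zc 1 Y := by
      intro i j hj
      have : j = 0 := by omega
      subst this
      rcases i with _ | _ | i
      · exact y00
      · exact y10
      · exact htriY _ _ (by omega)
    exact hz.left 4 0 (by omega)
  simp only [Phi, ex_sub, ex_add, ex_smul, ex_zero, A0, A1, A2, R0, R1, R2, R3, y00, y11, y01, y10,
    y12, z02, z03, z04, z05, z13, z14, z20, z24, z30, z31, z40, z41, z42] at e00 e01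
  have hdd : (d : K) * ((d : K) - 1) ≠ 0 := mul_ne_zero hd0 hd1
  have y21 : ex Y 2 1 = 0 := by
    have : (d : K) * ((d : K) - 1) * (3 * ex Y 2 1) = 0 := by linear_combination -e00
    have := (mul_eq_zero.mp this).resolve_left hdd
    exact (mul_eq_zero.mp this).resolve_left (by norm_num)
  have y22 : ex Y 2 2 = 0 := by
    have : (d : K) * ((d : K) - 1) * (6 * ex Y 2 2) = 0 := by linear_combination -e01
    have := (mul_eq_zero.mp this).resolve_left hdd
    exact (mul_eq_zero.mp this).resolve_left (by norm_num)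
  have y32 : ex Y 3 2 = 0 := by
    rcases Nat.lt_or_ge d 3 with h3 | h3
    · exact ex_row_out _ (by omega)
    have A3 : ∀ (M : Matrix (Fin (d + 1)) (Fin (d + 1)) K) (j : ℕ),
        ex (kA K d * M) 3 j = ((d : K) - 3) * ex M 4 j + 3 * ex M 2 j := by
      intro M j
      have := ex_A_mul_succ M j (show 2 < d by omega)
      rw [this]; push_cast; ring
    simp only [Phi, ex_sub, ex_add, ex_smul, ex_zero, A0, A1, A2, A3, R0, R1, R2, R3, R4, y00, y11,
      y01, y10, y12, y21, y22, z02, z03, z04, z05, z13, z14, z20, z24, z30, z31, z40, z41, z42,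
      yA40] at e02 e20
    have hd2 : (d : K) - 2 ≠ 0 := by
      rw [sub_ne_zero]; intro h
      have : d = 2 := by exact_mod_cast h
      omega
    have f1 : (d : K) * ((d : K) - 1) * (((d : K) - 2) * ex Y 3 2 - 9 * ex Y 2 3) = 0 := by
      linear_combination e02
    have f1' := (mul_eq_zero.mp f1).resolve_left hdd
    have f2 : 6 * (((d : K) - 2) * ex Y 3 2 - ex Y 2 3) = 0 := by
      linear_combination e20
    have f2' := (mul_eq_zero.mp f2).resolve_left (by norm_num)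
    have f3 : 8 * (((d : K) - 2) * ex Y 3 2) = 0 := by linear_combination 9 * f2' - f1'
    have f3' := (mul_eq_zero.mp f3).resolve_left (by norm_num)
    exact (mul_eq_zero.mp f3').resolve_left hd2
  have hZ : Zc 3 Y := by
    intro i j hj
    have hj' : j = 0 ∨ j = 1 ∨ j = 2 := by omega
    rcases hj' with rfl | rfl | rfl
    · rcases i with _ | _ | i
      · exact y00
      · exact y10
      · exact htriY _ _ (by omega)
    · rcases i with _ | _ | _ | i
      · exact y01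
      · exact y11
      · exact y21
      · exact htriY _ _ (by omega)
    · rcases i with _ | _ | _ | _ | i
      · exact z02
      · exact y12
      · exact y22
      · exact y32
      · exact htriY _ _ (by omega)
  have := cols_zero hPhiY hZ
  rw [hY] at this
  exact sub_eq_zero.mp this

end N704.LT
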