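import Pool.Agent.N704.LT.F

/-!
Necessity, part 3: transport to the eigenbases.
-/

namespace N704.LT

open Matrix

variable {K : Type*} [Field K] {d : ℕ}

/-- conjugation -/
noncomputable def cj (P M : Matrix (Fin (d + 1)) (Fin (d + 1)) K) : Matrix (Fin (d + 1)) (Fin (d + 1)) K :=
  P⁻¹ * M * P

variable {P : Matrix (Fin (d + 1)) (Fin (d + 1)) K}

theorem inv_mul_self' (hP : IsUnit P) : P⁻¹ * P = 1 :=
  Matrix.nonsing_inv_mul _ ((Matrix.isUnit_iff_isUnit_det _).mp hP)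

theorem mul_inv_self' (hP : IsUnit P) : P * P⁻¹ = 1 :=
  Matrix.mul_nonsing_inv _ ((Matrix.isUnit_iff_isUnit_det _).mp hP)

theorem cj_mul (hP : IsUnit P) (M N : Matrix (Fin (d + 1)) (Fin (d + 1)) K) :
    cj P (M * N) = cj P M * cj P N := by
  unfold cj
  calc P⁻¹ * (M * N) * P = P⁻¹ * M * 1 * N * P := by rw [Matrix.mul_one]; simp only [mul_assoc]
    _ = P⁻¹ * M * (P * P⁻¹) * N * P := by rw [mul_inv_self' hP]
    _ = _ := by simp only [mul_assoc]

theorem cj_sub (M N : Matrix (Fin (d + 1)) (Fin (d + 1)) K) :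
    cj P (M - N) = cj P M - cj P N := by
  unfold cj; rw [mul_sub, sub_mul]

theorem cj_add (M N : Matrix (Fin (d + 1)) (Fin (d + 1)) K) :
    cj P (M + N) = cj P M + cj P N := by
  unfold cj; rw [mul_add, add_mul]

theorem cj_smul (c : K) (M : Matrix (Fin (d + 1)) (Fin (d + 1)) K) :
    cj P (c • M) = c • cj P M := by
  unfold cj; rw [mul_smul_comm, smul_mul_assoc]

theorem cj_one (hP : IsUnit P) : cj P 1 = 1 := by
  unfold cj; rw [Matrix.mul_one, inv_mul_self' hP]

theorem cj_zero : cj P 0 = 0 := by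
  unfold cj; simp

theorem cj_inj (hP : IsUnit P) {M N : Matrix (Fin (d + 1)) (Fin (d + 1)) K}
    (h : cj P M = cj P N) : M = N := by
  have key : ∀ M : Matrix (Fin (d + 1)) (Fin (d + 1)) K, P * cj P M * P⁻¹ = M := by
    intro M
    unfold cj
    calc P * (P⁻¹ * M * P) * P⁻¹ = (P * P⁻¹) * M * (P * P⁻¹) := by simp only [mul_assoc]
      _ = M := by rw [mul_inv_self' hP]; simp
  rw [← key M, ← key N, h]

theorem cj_dbl (hP : IsUnit P) (A X : Matrix (Fin (d + 1)) (Fin (d + 1)) K) :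
    cj P (dbl A X) = dbl (cj P A) (cj P X) := by
  unfold dbl
  simp only [cj_sub, cj_mul hP]

theorem cj_Phi (hP : IsUnit P) (A X : Matrix (Fin (d + 1)) (Fin (d + 1)) K) :
    cj P (Phi A X) = Phi (cj P A) (cj P X) := by
  unfold Phi
  simp only [cj_sub, cj_add, cj_smul, cj_mul hP]

theorem exists_diag {D : Matrix (Fin (d + 1)) (Fin (d + 1)) K} (hD : D.IsDiag) :
    ∃ x : Fin (d + 1) → K, D = Matrix.diagonal x :=
  ⟨_, hD.diagonal_diag.symm⟩

theorem dbl_diag_apply (x : Fin (d + 1) → K) (T : Matrix (Fin (d + 1)) (Fin (d + 1)) K)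
    (i j : Fin (d + 1)) : dbl (Matrix.diagonal x) T i j = (x i - x j) ^ 2 * T i j := by
  unfold dbl
  simp only [Matrix.sub_apply, Matrix.diagonal_mul, Matrix.mul_diagonal]
  ring

theorem Phi_diag_apply (x : Fin (d + 1) → K) (T : Matrix (Fin (d + 1)) (Fin (d + 1)) K)
    (i j : Fin (d + 1)) :
    Phi (Matrix.diagonal x) T i j = ((x i - x j) ^ 3 - 4 * (x i - x j)) * T i j := by
  unfold Phi
  simp only [Matrix.sub_apply, Matrix.add_apply, Matrix.smul_apply, Matrix.diagonal_mul,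
    Matrix.mul_diagonal, smul_eq_mul]
  ring

theorem Phi_of_dbl {D T Y : Matrix (Fin (d + 1)) (Fin (d + 1)) K} (hD : D.IsDiag)
    (hT : IrrTridiag T) (hY : IrrTridiag Y) (h : dbl D T = (4 : K) • T) : Phi D Y = 0 := by
  obtain ⟨x, rfl⟩ := exists_diag hD
  ext i j
  rw [Phi_diag_apply, Matrix.zero_apply]
  by_cases h1 : (j : ℕ) = (i : ℕ) + 1 ∨ (i : ℕ) = (j : ℕ) + 1
  · have hne := hT.2 i j h1
    have e := congrFun (congrFun h i) j
    rw [dbl_diag_apply, Matrix.smul_apply, smul_eq_mul] at e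
    have e' : (x i - x j) ^ 2 = 4 := mul_right_cancel₀ hne e
    have : (x i - x j) ^ 3 - 4 * (x i - x j) = 0 := by
      linear_combination (x i - x j) * e'
    rw [this, zero_mul]
  · by_cases h2 : i = j
    · subst h2; simp
    · rw [hY.1 i j (by
        have : (i : ℕ) ≠ j := fun h => h2 (Fin.ext h)
        omega), mul_zero]

theorem Phi_A_of_leonard {X : Matrix (Fin (d + 1)) (Fin (d + 1)) K}
    (h : LeonardAt (kA K d) (kS K d) X) : Phi (kA K d) X = 0 := by
  obtain ⟨P, hP, hD, hT, hY⟩ := h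
  apply cj_inj hP
  rw [cj_Phi hP, cj_zero]
  apply Phi_of_dbl hD hT hY
  have := congrArg (cj P) (dbl_AH (K := K) (d := d))
  rwa [cj_dbl hP, cj_smul] at this

theorem Phi_H_of_leonard {X : Matrix (Fin (d + 1)) (Fin (d + 1)) K}
    (h : LeonardAt (kS K d) (kA K d) X) : Phi (kS K d) X = 0 := by
  obtain ⟨P, hP, hD, hT, hY⟩ := h
  apply cj_inj hP
  rw [cj_Phi hP, cj_zero]
  apply Phi_of_dbl hD hT hY
  have := congrArg (cj P) (dbl_HA (K := K) (d := d))
  rwa [cj_dbl hP, cj_smul] at this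

theorem tri_of_Phi_H [CharZero K] {X : Matrix (Fin (d + 1)) (Fin (d + 1)) K}
    (h : Phi (kS K d) X = 0) : Tri X := by
  intro i j hij
  by_cases hi : i ≤ d
  swap
  · exact ex_row_out _ (by omega)
  by_cases hj : j ≤ d
  swap
  · exact ex_col_out _ (by omega)
  rw [ex_of_lt _ (by omega) (by omega)]
  have e := congrFun (congrFun h ⟨i, by omega⟩) ⟨j, by omega⟩
  rw [kS, Phi_diag_apply, Matrix.zero_apply] at e
  refine (mul_eq_zero.mp e).resolve_left ?_
  simp only
  have e1 : ((d : K) - 2 * (i : K) - ((d : K) - 2 * (j : K))) ^ 3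
      - 4 * ((d : K) - 2 * (i : K) - ((d : K) - 2 * (j : K)))
      = 8 * (((j : K) - i) * ((j : K) - (i + 1)) * ((j + 1 : K) - i)) := by ring
  rw [e1]
  have h1 : (j : K) - i ≠ 0 := by
    rw [sub_ne_zero]; intro h'
    have : j = i := by exact_mod_cast h'
    omega
  have h2 : (j : K) - (i + 1) ≠ 0 := by
    rw [sub_ne_zero]; intro h'
    have : j = i + 1 := by exact_mod_cast h'
    omega
  have h3 : (j + 1 : K) - i ≠ 0 := by
    rw [sub_ne_zero]; intro h'
    have : j + 1 = i := by exact_mod_cast h'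
    omega
  exact mul_ne_zero (by norm_num) (mul_ne_zero (mul_ne_zero h1 h2) h3)

theorem dbl_diag_right (T : Matrix (Fin (d + 1)) (Fin (d + 1)) K) (x : Fin (d + 1) → K)
    (i j : Fin (d + 1)) :
    dbl T (Matrix.diagonal x) i j = ∑ k, T i k * T k j * (x j - 2 * x k + x i) := by
  unfold dbl
  rw [Matrix.sub_apply, Matrix.mul_apply, Matrix.mul_apply, ← Finset.sum_sub_distrib]
  apply Finset.sum_congr rfl
  intro k _
  simp only [Matrix.sub_apply, Matrix.diagonal_mul, Matrix.mul_diagonal]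
  ring

/-- the dual relation -/
theorem dbl_dual (hd : 1 ≤ d) {D T : Matrix (Fin (d + 1)) (Fin (d + 1)) K} (hD : D.IsDiag)
    (hT : IrrTridiag T) (c0 c1 : K)
    (h : dbl T D = (4 : K) • (D - c0 • (1 : Matrix (Fin (d + 1)) (Fin (d + 1)) K) - c1 • T)) :
    ∃ δ η : K, dbl D T = δ • T - (4 * c1) • D
      + η • (1 : Matrix (Fin (d + 1)) (Fin (d + 1)) K) := by
  obtain ⟨x, rfl⟩ := exists_diag hD
  -- second differences
  have h2 : ∀ (i : ℕ) (hi : i + 2 < d + 1), x ⟨i + 2, hi⟩ - 2 * x ⟨i + 1, by omega⟩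
      + x ⟨i, by omega⟩ = 0 := by
    intro i hi
    have e := congrFun (congrFun h ⟨i, by omega⟩) ⟨i + 2, hi⟩
    rw [dbl_diag_right, Fintype.sum_eq_single (⟨i + 1, by omega⟩ : Fin (d + 1))] at e
    · have hne : (⟨i, by omega⟩ : Fin (d + 1)) ≠ ⟨i + 2, hi⟩ := by
        intro h'; simp at h'
      rw [Matrix.smul_apply, Matrix.sub_apply, Matrix.sub_apply, Matrix.smul_apply,
        Matrix.smul_apply, Matrix.diagonal_apply_ne _ hne, Matrix.one_apply_ne hne,
        hT.1 ⟨i, by omega⟩ ⟨i + 2, hi⟩ (by left; simp)] at e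
      have t1 := hT.2 ⟨i, by omega⟩ ⟨i + 1, by omega⟩ (by left; simp)
      have t2 := hT.2 ⟨i + 1, by omega⟩ ⟨i + 2, hi⟩ (by left; simp)
      have e' : T ⟨i, by omega⟩ ⟨i + 1, by omega⟩ * T ⟨i + 1, by omega⟩ ⟨i + 2, hi⟩
        * (x ⟨i + 2, hi⟩ - 2 * x ⟨i + 1, by omega⟩ + x ⟨i, by omega⟩) = 0 := by
        rw [e]; simp
      exact (mul_eq_zero.mp e').resolve_left (mul_ne_zero t1 t2)
    · intro k hk
      have hk' : (k : ℕ) ≠ i + 1 := fun h' => hk (Fin.ext h')
      by_cases hk2 : (k : ℕ) ≤ i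
      · rw [hT.1 k ⟨i + 2, hi⟩ (by left; simp; omega)]; ring
      · rw [hT.1 ⟨i, by omega⟩ k (by left; simp; omega)]; ring
  have h1 : ∀ (i : ℕ) (hi : i + 1 < d + 1), (x ⟨i + 1, hi⟩ - x ⟨i, by omega⟩)
      * (T ⟨i + 1, hi⟩ ⟨i + 1, hi⟩ - T ⟨i, by omega⟩ ⟨i, by omega⟩) = 4 * c1 := by
    intro i hi
    have e := congrFun (congrFun h ⟨i, by omega⟩) ⟨i + 1, hi⟩
    have hne : (⟨i, by omega⟩ : Fin (d + 1)) ≠ ⟨i + 1, hi⟩ := by
      intro h'; simp at h'
    rw [dbl_diag_right, Fintype.sum_eq_add (⟨i, by omega⟩ : Fin (d + 1)) ⟨i + 1, hi⟩ hne] at e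
    · rw [Matrix.smul_apply, Matrix.sub_apply, Matrix.sub_apply, Matrix.smul_apply,
        Matrix.smul_apply, Matrix.diagonal_apply_ne _ hne, Matrix.one_apply_ne hne] at e
      have t1 := hT.2 ⟨i, by omega⟩ ⟨i + 1, hi⟩ (by left; simp)
      apply mul_left_cancel₀ t1
      simp only [smul_eq_mul] at e
      linear_combination -e
    · intro k hk
      have hk1 : (k : ℕ) ≠ i := fun h' => hk.1 (Fin.ext h')
      have hk2 : (k : ℕ) ≠ i + 1 := fun h' => hk.2 (Fin.ext h')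
      by_cases hk3 : (k : ℕ) < i
      · rw [hT.1 k ⟨i + 1, hi⟩ (by left; simp; omega)]; ring
      · rw [hT.1 ⟨i, by omega⟩ k (by left; simp; omega)]; ring
  obtain ⟨δ, hδ⟩ : ∃ δ : K, δ = x ⟨1, by omega⟩ - x ⟨0, by omega⟩ := ⟨_, rfl⟩
  have hdiff : ∀ (i : ℕ) (hi : i + 1 < d + 1), x ⟨i + 1, hi⟩ - x ⟨i, by omega⟩ = δ := by
    intro i
    induction i with
    | zero => intro hi; rw [hδ]
    | succ i ih =>
      intro hi
      have := ih (by omega)
      have := h2 i hi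
      linear_combination this + ih (by omega)
  have hx : ∀ (i : ℕ) (hi : i < d + 1), x ⟨i, hi⟩ = x ⟨0, by omega⟩ + i * δ := by
    intro i
    induction i with
    | zero => intro hi; simp
    | succ i ih =>
      intro hi
      have e1 := ih (by omega)
      have e2 := hdiff i hi
      push_cast
      linear_combination e1 + e2
  have hα : ∀ (i : ℕ) (hi : i < d + 1), δ * (T ⟨i, hi⟩ ⟨i, hi⟩ - T ⟨0, by omega⟩ ⟨0, by omega⟩)
      = 4 * c1 * i := by
    intro i
    induction i with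
    | zero => intro hi; simp
    | succ i ih =>
      intro hi
      have e1 := ih (by omega)
      have e2 := h1 i hi
      rw [hdiff i hi] at e2
      push_cast
      linear_combination e1 + e2
  refine ⟨δ ^ 2, 4 * c1 * x ⟨0, by omega⟩ - δ ^ 2 * T ⟨0, by omega⟩ ⟨0, by omega⟩, ?_⟩
  ext i j
  rw [dbl_diag_apply, Matrix.add_apply, Matrix.sub_apply, Matrix.smul_apply, Matrix.smul_apply,
    Matrix.smul_apply]
  simp only [smul_eq_mul]
  have hxi := hx i i.2
  have hxj := hx j j.2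
  simp only [Fin.eta] at hxi hxj
  by_cases hij : i = j
  · subst hij
    rw [Matrix.diagonal_apply_eq, Matrix.one_apply_eq]
    have hαi := hα i i.2
    simp only [Fin.eta] at hαi
    linear_combination (-δ) * hαi + (4 * c1) * hxi
  · rw [Matrix.diagonal_apply_ne _ hij, Matrix.one_apply_ne hij]
    have hij' : (i : ℕ) ≠ j := fun h' => hij (Fin.ext h')
    by_cases hadj : (j : ℕ) = (i : ℕ) + 1 ∨ (i : ℕ) = (j : ℕ) + 1
    · have : (x i - x j) ^ 2 = δ ^ 2 := by
        rw [hxi, hxj]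
        rcases hadj with h' | h' <;> rw [h'] <;> push_cast <;> ring
      rw [this]; ring
    · rw [hT.1 i j (by omega)]; ring

end N704.LT
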