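import Pool.Agent.N704.LT.G
import Pool.Agent.N704.LT.D

/-!
Necessity, part 4.
-/

set_option linter.unusedSimpArgs false

namespace N704.LT

open Matrix

variable {K : Type*} [Field K] {d : ℕ}

theorem ex_mul (M N : Matrix (Fin (d + 1)) (Fin (d + 1)) K) (i j : ℕ) :
    ex (M * N) i j = ∑ k ∈ Finset.range (d + 1), ex M i k * ex N k j := by
  by_cases hi : i < d + 1
  swap
  · rw [ex_row_out _ (by omega), Finset.sum_eq_zero]
    intro k _
    rw [ex_row_out M (by omega), zero_mul]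
  by_cases hj : j < d + 1
  swap
  · rw [ex_col_out _ (by omega), Finset.sum_eq_zero]
    intro k _
    rw [ex_col_out N (by omega), mul_zero]
  rw [ex_of_lt _ hi hj, Matrix.mul_apply, Finset.sum_range]
  apply Finset.sum_congr rfl
  intro k _
  rw [ex_of_lt _ hi k.2, ex_of_lt _ k.2 hj]

/-- In dimension at least four the coefficient of the anticommutator vanishes. -/
theorem c4_zero [CharZero K] (hd : 3 ≤ d) (c0 c1 c2 c3 c4 δ η μ : K)
    (h : dbl (mW K d c0 c1 c2 c3 c4) (kA K d)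
      = δ • kA K d - μ • mW K d c0 c1 c2 c3 c4
        + η • (1 : Matrix (Fin (d + 1)) (Fin (d + 1)) K)) : c4 = 0 := by
  obtain ⟨X, hX⟩ : ∃ X, X = mW K d c0 c1 c2 c3 c4 := ⟨_, rfl⟩
  have hT : Tri X := by rw [hX]; exact Tri_W _ _ _ _ _
  have h0 : 0 ≤ d := by omega
  have h1 : 1 ≤ d := by omega
  have h2 : 2 ≤ d := by omega
  have x01 : ex X 0 1 = d * (c1 + c3 + (2 * d - 2) * c4) := by
    simp only [hX, mW, ex_add, ex_smul, ex_Q, ex_one h0, ex_A h0 h1, ex_G h0 h1, ex_H h0 h1]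
    simp
    ring
  have x12 : ex X 1 2 = (d - 1) * (c1 + c3 + (2 * d - 6) * c4) := by
    simp only [hX, mW, ex_add, ex_smul, ex_Q, ex_one h1, ex_A h1 h2, ex_G h1 h2, ex_H h1 h2]
    simp
    ring
  have x23 : ex X 2 3 = (d - 2) * (c1 + c3 + (2 * d - 10) * c4) := by
    simp only [hX, mW, ex_add, ex_smul, ex_Q, ex_one h2, ex_A h2 hd, ex_G h2 hd, ex_H h2 hd]
    simp
    ring
  rw [← hX] at h
  have e := congrArg (fun M => ex M 0 3) h
  obtain ⟨M, hM⟩ : ∃ M, M = X * kA K d - kA K d * X := ⟨_, rfl⟩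
  have m13 : ex M 1 3 = ((d : K) - 2) * ex X 1 2 - ((d : K) - 1) * ex X 2 3 := by
    have e1 : ex (X * kA K d) 1 3 = ((d : K) - (2 : ℕ)) * ex X 1 2
        + (((2 : ℕ) : K) + 2) * ex X 1 4 := ex_mul_A_succ X 1 2
    have e2 : ex (kA K d * X) 1 3 = ((d : K) - (0 : ℕ) - 1) * ex X 2 3
        + (((0 : ℕ) : K) + 1) * ex X 0 3 := ex_A_mul_succ X 3 (show 0 < d by omega)
    rw [hM, ex_sub, e1, e2, hT 1 4 (by omega), hT 0 3 (by omega)]
    push_cast; ring
  have m02 : ex M 0 2 = ((d : K) - 1) * ex X 0 1 - (d : K) * ex X 1 2 := by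
    have e1 := ex_mul_A_succ X 0 1
    rw [hM, ex_sub, ex_A_mul_zero, show (2 : ℕ) = 1 + 1 from rfl, e1, hT 0 (1 + 2) (by omega)]
    push_cast; ring
  have m0k : ∀ k, 3 ≤ k → ex M 0 k = 0 := by
    intro k hk
    obtain ⟨k, rfl⟩ : ∃ k', k = k' + 1 := ⟨k - 1, by omega⟩
    rw [hM, ex_sub, ex_A_mul_zero, ex_mul_A_succ, hT 0 k (by omega), hT 0 (k + 2) (by omega),
      hT 1 (k + 1) (by omega)]
    ring
  have hdbl : dbl X (kA K d) = X * M - M * X := by rw [hM, dbl]
  have s1 : ex (X * M) 0 3 = ex X 0 1 * ex M 1 3 := by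
    rw [ex_mul, Finset.sum_eq_single 1]
    · intro k _ hk
      rcases Nat.lt_or_ge k 1 with hk' | hk'
      · have : k = 0 := by omega
        subst this
        rw [m0k 3 le_rfl, mul_zero]
      · rw [hT 0 k (by omega), zero_mul]
    · intro hk; exact absurd (Finset.mem_range.mpr (by omega)) hk
  have s2 : ex (M * X) 0 3 = ex M 0 2 * ex X 2 3 := by
    rw [ex_mul, Finset.sum_eq_single 2]
    · intro k _ hk
      rcases Nat.lt_or_ge k 2 with hk' | hk'
      · rw [hT k 3 (by omega), mul_zero]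
      · rw [m0k k (by omega), zero_mul]
    · intro hk; exact absurd (Finset.mem_range.mpr (by omega)) hk
  have a03 : ex (kA K d) 0 3 = 0 := by rw [ex_A h0 hd]; simp
  have i03 : ex (1 : Matrix (Fin (d + 1)) (Fin (d + 1)) K) 0 3 = 0 := by rw [ex_one h0]; simp
  simp only [hdbl, ex_sub, ex_add, ex_smul, s1, s2, m13, m02, a03, i03, hT 0 3 (by omega)] at e
  rw [x01, x12, x23] at e
  have hd0 : (d : K) ≠ 0 := Nat.cast_ne_zero.mpr (by omega)
  have hd1 : (d : K) - 1 ≠ 0 := by
    rw [sub_ne_zero]; intro h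
    have : d = 1 := by exact_mod_cast h
    omega
  have hd2 : (d : K) - 2 ≠ 0 := by
    rw [sub_ne_zero]; intro h
    have : d = 2 := by exact_mod_cast h
    omega
  have e' : ((d : K) * ((d : K) - 1) * ((d : K) - 2)) * (32 * c4 ^ 2) = 0 := by
    linear_combination e
  have e2 := (mul_eq_zero.mp e').resolve_left (mul_ne_zero (mul_ne_zero hd0 hd1) hd2)
  have e3 := (mul_eq_zero.mp e2).resolve_left (by norm_num)
  exact pow_eq_zero_iff (by norm_num) |>.mp e3

theorem mW_two (c0 c1 c2 c3 c4 : K) : mW K 2 c0 c1 c2 c3 c4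
    = !![c0 + 2 * c2, 2 * c1 + 2 * c3 + 4 * c4, 0;
        c1 - c3 + 2 * c4, c0, c1 + c3 - 2 * c4;
        0, 2 * c1 - 2 * c3 - 4 * c4, c0 - 2 * c2] := by
  rw [mW, mQ, kA_two, kS_two, mG_two]
  ext i j
  fin_cases i <;> fin_cases j <;> simp [Fin.sum_univ_three] <;> ring

theorem d2_c2c4 [CharZero K] (c0 c1 c2 c3 c4 δ η μ : K)
    (h : dbl (mW K 2 c0 c1 c2 c3 c4) (kA K 2)
      = δ • kA K 2 - μ • mW K 2 c0 c1 c2 c3 c4
        + η • (1 : Matrix (Fin (2 + 1)) (Fin (2 + 1)) K)) : c2 * c4 = 0 := by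
  rw [mW_two, kA_two] at h
  have e := congrFun (congrFun h 0) 2
  simp [dbl, Matrix.mul_apply, Fin.sum_univ_three] at e
  have e' : 48 * (c2 * c4) = 0 := by linear_combination e
  exact (mul_eq_zero.mp e').resolve_left (by norm_num)

theorem d2_c1c4 [CharZero K] (c0 c1 c2 c3 c4 δ η : K)
    (h : dbl (mW K 2 c0 c1 c2 c3 c4) (kS K 2)
      = δ • kS K 2 - (4 * c2) • mW K 2 c0 c1 c2 c3 c4
        + η • (1 : Matrix (Fin (2 + 1)) (Fin (2 + 1)) K)) : c1 * c4 = 0 := by
  rw [mW_two, kS_two] at h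
  have e00 := congrFun (congrFun h 0) 0
  have e11 := congrFun (congrFun h 1) 1
  have e22 := congrFun (congrFun h 2) 2
  simp [dbl, Matrix.mul_apply, Fin.sum_univ_three] at e00 e11 e22
  have e' : 192 * (c1 * c4) = 0 := by linear_combination e00 - 2 * e11 + e22
  exact (mul_eq_zero.mp e').resolve_left (by norm_num)

/-- the case `d = 1`: every matrix lies in the four-dimensional space. -/
theorem mem_one [CharZero K] (X : Matrix (Fin (1 + 1)) (Fin (1 + 1)) K) :
    ∃ c0 c1 c2 c3 : K, X = c0 • (1 : Matrix (Fin (1 + 1)) (Fin (1 + 1)) K) + c1 • kA K 1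
      + c2 • kS K 1 + c3 • mG K 1 := by
  refine ⟨(X 0 0 + X 1 1) / 2, (X 0 1 + X 1 0) / 2, (X 0 0 - X 1 1) / 2, (X 0 1 - X 1 0) / 2, ?_⟩
  ext i j
  fin_cases i <;> fin_cases j <;> simp [kA, kS, mG, mE, mF] <;> ring

/-- no ladder element -/
theorem no_ladder [CharZero K] (hd : 1 ≤ d) {D Z : Matrix (Fin (d + 1)) (Fin (d + 1)) K}
    (hD : D.IsDiag) (hZ : IrrTridiag Z) (c0 c μ : K) (hμ : μ ≠ 0)
    (h : D * (Z - c0 • (1 : Matrix (Fin (d + 1)) (Fin (d + 1)) K) - c • D)
      - (Z - c0 • (1 : Matrix (Fin (d + 1)) (Fin (d + 1)) K) - c • D) * D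
      = μ • (Z - c0 • (1 : Matrix (Fin (d + 1)) (Fin (d + 1)) K) - c • D)) : False := by
  obtain ⟨x, rfl⟩ := exists_diag hD
  have key : ∀ i j : Fin (d + 1), i ≠ j → Z i j ≠ 0 → x i - x j = μ := by
    intro i j hij hz
    have e := congrFun (congrFun h i) j
    simp only [Matrix.sub_apply, Matrix.smul_apply, Matrix.diagonal_mul, Matrix.mul_diagonal,
      Matrix.diagonal_apply_ne _ hij, Matrix.one_apply_ne hij, smul_eq_mul, mul_zero,
      sub_zero] at e
    apply mul_right_cancel₀ hz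
    linear_combination e
  have hne : (⟨0, by omega⟩ : Fin (d + 1)) ≠ ⟨1, by omega⟩ := by
    intro h'; simp at h'
  have k1 := key _ _ hne (hZ.2 ⟨0, by omega⟩ ⟨1, by omega⟩ (by left; simp))
  have k2 := key _ _ hne.symm (hZ.2 ⟨1, by omega⟩ ⟨0, by omega⟩ (by right; simp))
  have : 2 * μ = 0 := by linear_combination -k1 - k2
  exact hμ ((mul_eq_zero.mp this).resolve_left (by norm_num))

theorem cj_smul_one (P : Matrix (Fin (d + 1)) (Fin (d + 1)) K) (hP : IsUnit P) (c : K) :
    cj P (c • (1 : Matrix (Fin (d + 1)) (Fin (d + 1)) K)) = c • 1 := by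
  rw [cj_smul, cj_one hP]

theorem ladder_false [CharZero K] (hd : 1 ≤ d) {H Y Z : Matrix (Fin (d + 1)) (Fin (d + 1)) K}
    (hL : LeonardAt H Y Z) (c0 c μ : K) (hμ : μ ≠ 0)
    (h : H * (Z - c0 • (1 : Matrix (Fin (d + 1)) (Fin (d + 1)) K) - c • H)
      - (Z - c0 • (1 : Matrix (Fin (d + 1)) (Fin (d + 1)) K) - c • H) * H
      = μ • (Z - c0 • (1 : Matrix (Fin (d + 1)) (Fin (d + 1)) K) - c • H)) : False := by
  obtain ⟨P, hP, hD, hT, hZ⟩ := hL
  have e := congrArg (cj P) h
  simp only [cj_sub, cj_mul hP, cj_smul, cj_one hP] at e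
  exact no_ladder hd hD hZ c0 c μ hμ e

theorem not_scalar (hd : 1 ≤ d) {H Y Z : Matrix (Fin (d + 1)) (Fin (d + 1)) K}
    (hL : LeonardAt H Y Z) (c : K) (h : Z = c • (1 : Matrix (Fin (d + 1)) (Fin (d + 1)) K)) :
    False := by
  obtain ⟨P, hP, hD, hT, hZ⟩ := hL
  have hne : (⟨0, by omega⟩ : Fin (d + 1)) ≠ ⟨1, by omega⟩ := by
    intro h'; simp at h'
  apply hZ.2 ⟨0, by omega⟩ ⟨1, by omega⟩ (by left; simp)
  change cj P Z _ _ = 0
  rw [h, cj_smul_one P hP, Matrix.smul_apply, Matrix.one_apply_ne hne, smul_zero]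

/-- conditions in the generic case -/
theorem cond_generic [CharZero K] (hd : 1 ≤ d) (c0 c1 c2 c3 : K)
    (hL : LeonardTriple (kA K d) (kS K d)
      (c0 • (1 : Matrix (Fin (d + 1)) (Fin (d + 1)) K) + c1 • kA K d + c2 • kS K d
        + c3 • mG K d)) :
    c1 ^ 2 ≠ c3 ^ 2 ∧ c2 ^ 2 ≠ c3 ^ 2 ∧ c1 ^ 2 + c2 ^ 2 ≠ c3 ^ 2 := by
  obtain ⟨hA, hH, hX⟩ := hL
  have cHA : kS K d * kA K d - kA K d * kS K d = (2 : K) • mG K d := by
    rw [← neg_sub, comm_AH]; module
  refine ⟨?_, ?_, ?_⟩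
  · intro h0
    have h0' : (c1 - c3) * (c1 + c3) = 0 := by linear_combination h0
    have hY : c0 • (1 : Matrix (Fin (d + 1)) (Fin (d + 1)) K) + c1 • kA K d + c2 • kS K d
        + c3 • mG K d - c0 • (1 : Matrix (Fin (d + 1)) (Fin (d + 1)) K) - c2 • kS K d
        = c1 • kA K d + c3 • mG K d := by abel
    have hbr : kS K d * (c1 • kA K d + c3 • mG K d) - (c1 • kA K d + c3 • mG K d) * kS K d
        = (2 : K) • (c3 • kA K d + c1 • mG K d) := by
      have : kS K d * (c1 • kA K d + c3 • mG K d) - (c1 • kA K d + c3 • mG K d) * kS K d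
        = c1 • (kS K d * kA K d - kA K d * kS K d) + c3 • (kS K d * mG K d - mG K d * kS K d) := by
        simp only [mul_add, add_mul, mul_smul_comm, smul_mul_assoc, smul_sub]; abel
      rw [this, cHA, comm_HG]; module
    rcases mul_eq_zero.mp h0' with h1 | h1
    · have h1' : c3 = c1 := (sub_eq_zero.mp h1).symm
      apply ladder_false hd hH c0 c2 2 (by norm_num)
      rw [hY, hbr, h1']
    · have h1' : c3 = -c1 := by linear_combination h1
      apply ladder_false hd hH c0 c2 (-2) (by norm_num)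
      rw [hY, hbr, h1']; module
  · intro h0
    have h0' : (c2 - c3) * (c2 + c3) = 0 := by linear_combination h0
    have hY : c0 • (1 : Matrix (Fin (d + 1)) (Fin (d + 1)) K) + c1 • kA K d + c2 • kS K d
        + c3 • mG K d - c0 • (1 : Matrix (Fin (d + 1)) (Fin (d + 1)) K) - c1 • kA K d
        = c2 • kS K d + c3 • mG K d := by abel
    have hbr : kA K d * (c2 • kS K d + c3 • mG K d) - (c2 • kS K d + c3 • mG K d) * kA K d
        = (-2 : K) • (c3 • kS K d + c2 • mG K d) := by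
      have : kA K d * (c2 • kS K d + c3 • mG K d) - (c2 • kS K d + c3 • mG K d) * kA K d
        = c2 • (kA K d * kS K d - kS K d * kA K d) + c3 • (kA K d * mG K d - mG K d * kA K d) := by
        simp only [mul_add, add_mul, mul_smul_comm, smul_mul_assoc, smul_sub]; abel
      rw [this, comm_AH, comm_AG]; module
    rcases mul_eq_zero.mp h0' with h1 | h1
    · have h1' : c3 = c2 := (sub_eq_zero.mp h1).symm
      apply ladder_false hd hA c0 c1 (-2) (by norm_num)
      rw [hY, hbr, h1']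
    · have h1' : c3 = -c2 := by linear_combination h1
      apply ladder_false hd hA c0 c1 2 (by norm_num)
      rw [hY, hbr, h1']; module
  · intro h0
    obtain ⟨X, hXdef⟩ : ∃ X, X = c0 • (1 : Matrix (Fin (d + 1)) (Fin (d + 1)) K) + c1 • kA K d
      + c2 • kS K d + c3 • mG K d := ⟨_, rfl⟩
    rw [← hXdef] at hX hA
    have hbr : X * kA K d - kA K d * X = (2 * c2) • mG K d + (2 * c3) • kS K d := by
      have : X * kA K d - kA K d * X
          = c2 • (kS K d * kA K d - kA K d * kS K d) - c3 • (kA K d * mG K d - mG K d * kA K d) := by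
        rw [hXdef]
        simp only [mul_add, add_mul, mul_smul_comm, smul_mul_assoc, smul_sub, mul_one, one_mul]
        abel
      rw [this, cHA, comm_AG]; module
    have hdbl : dbl X (kA K d) = (-(4 * c1)) • X + (4 * c1 * c0)
        • (1 : Matrix (Fin (d + 1)) (Fin (d + 1)) K) := by
      have : dbl X (kA K d) = (2 * c2) • (c1 • (kA K d * mG K d - mG K d * kA K d)
          + c2 • (kS K d * mG K d - mG K d * kS K d))
          + (2 * c3) • (c1 • (kA K d * kS K d - kS K d * kA K d)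
            - c3 • (kS K d * mG K d - mG K d * kS K d)) := by
        rw [dbl, hbr, hXdef]
        simp only [mul_add, add_mul, mul_smul_comm, smul_mul_assoc, smul_sub, mul_one, one_mul,
          smul_add]
        module
      rw [this, comm_AG, comm_HG, comm_AH, hXdef]
      have h4 : c2 ^ 2 - c3 ^ 2 = - c1 ^ 2 := by linear_combination h0
      have e1 : (2 * c2) • (c1 • (-2 : K) • kS K d + c2 • (2 : K) • kA K d) +
        (2 * c3) • (c1 • (-2 : K) • mG K d - c3 • (2 : K) • kA K d)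
        = (4 * (c2 ^ 2 - c3 ^ 2)) • kA K d - (4 * c1 * c2) • kS K d - (4 * c1 * c3) • mG K d := by
        module
      rw [e1, h4]
      module
    obtain ⟨P, hP, hD, hT, hS⟩ := hX
    have e := congrArg (cj P) hdbl
    rw [cj_dbl hP, cj_add, cj_smul, cj_smul, cj_one hP] at e
    obtain ⟨x, hx⟩ := exists_diag hD
    have hx' : cj P X = Matrix.diagonal x := hx
    rw [hx'] at e
    have heq : ∀ (i : ℕ) (hi : i + 1 < d + 1), x ⟨i + 1, hi⟩ = x ⟨i, by omega⟩ := by
      intro i hi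
      have hne : (⟨i, by omega⟩ : Fin (d + 1)) ≠ ⟨i + 1, hi⟩ := by
        intro h'; simp at h'
      have e1 := congrFun (congrFun e ⟨i, by omega⟩) ⟨i + 1, hi⟩
      rw [dbl_diag_apply, Matrix.add_apply, Matrix.smul_apply, Matrix.smul_apply,
        Matrix.diagonal_apply_ne _ hne, Matrix.one_apply_ne hne, smul_zero, smul_zero,
        add_zero] at e1
      have t1 := hT.2 ⟨i, by omega⟩ ⟨i + 1, hi⟩ (by left; simp)
      have e2 := (mul_eq_zero.mp e1).resolve_right t1
      have e3 := pow_eq_zero_iff (two_ne_zero) |>.mp e2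
      exact (sub_eq_zero.mp e3).symm
    have hall : ∀ (i : ℕ) (hi : i < d + 1), x ⟨i, hi⟩ = x ⟨0, by omega⟩ := by
      intro i
      induction i with
      | zero => intro hi; rfl
      | succ i ih => intro hi; rw [heq i hi, ih (by omega)]
    have hsc : X = x ⟨0, by omega⟩ • (1 : Matrix (Fin (d + 1)) (Fin (d + 1)) K) := by
      apply cj_inj hP
      rw [hx', cj_smul_one P hP]
      ext i j
      by_cases hij : i = j
      · subst hij
        rw [Matrix.diagonal_apply_eq, Matrix.smul_apply, Matrix.one_apply_eq, smul_eq_mul, mul_one]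
        exact hall i i.2
      · rw [Matrix.diagonal_apply_ne _ hij, Matrix.smul_apply, Matrix.one_apply_ne hij, smul_zero]
    exact not_scalar hd hA _ hsc

/-- condition in the exceptional case -/
theorem cond_exotic [CharZero K] (c0 c3 c4 : K)
    (hL : LeonardTriple (kA K 2) (kS K 2)
      (c0 • (1 : Matrix (Fin (2 + 1)) (Fin (2 + 1)) K) + c3 • mG K 2
        + c4 • (kA K 2 * kS K 2 + kS K 2 * kA K 2))) : c3 ^ 2 ≠ 4 * c4 ^ 2 := by
  intro h0
  obtain ⟨hA, hH, hX⟩ := hL
  obtain ⟨X, hXdef⟩ : ∃ X, X = c0 • (1 : Matrix (Fin (2 + 1)) (Fin (2 + 1)) K) + c3 • mG K 2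
        + c4 • (kA K 2 * kS K 2 + kS K 2 * kA K 2) := ⟨_, rfl⟩
  rw [← hXdef] at hX hA
  have hcube : (X - c0 • (1 : Matrix (Fin (2 + 1)) (Fin (2 + 1)) K))
      * ((X - c0 • (1 : Matrix (Fin (2 + 1)) (Fin (2 + 1)) K))
      * (X - c0 • (1 : Matrix (Fin (2 + 1)) (Fin (2 + 1)) K))) = 0 := by
    have : X - c0 • (1 : Matrix (Fin (2 + 1)) (Fin (2 + 1)) K)
        = !![0, 2 * (c3 + 2 * c4), 0; -(c3 - 2 * c4), 0, c3 - 2 * c4;
          0, -(2 * (c3 + 2 * c4)), 0] := by
      rw [hXdef, exotic_two]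
      ext i j
      fin_cases i <;> fin_cases j <;> simp
    rw [this]
    ext i j
    fin_cases i <;> fin_cases j <;> simp [-mul_eq_zero] <;>
      first
        | linear_combination (8 * c3 + 16 * c4) * h0
        | linear_combination (-(8 * c3 + 16 * c4)) * h0
        | linear_combination (4 * c3 - 8 * c4) * h0
        | linear_combination (-(4 * c3 - 8 * c4)) * h0
  obtain ⟨P, hP, hD, hT, hS⟩ := hX
  obtain ⟨x, hx⟩ := exists_diag hD
  have hx' : cj P X = Matrix.diagonal x := hx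
  have e := congrArg (cj P) hcube
  simp only [cj_mul hP, cj_sub, cj_smul, cj_one hP, cj_zero, hx'] at e
  have hall : ∀ i, x i = c0 := by
    intro i
    have e1 := congrFun (congrFun e i) i
    have hdg : (Matrix.diagonal x - c0 • (1 : Matrix (Fin (2 + 1)) (Fin (2 + 1)) K))
        = Matrix.diagonal (fun i => x i - c0) := by
      ext a b
      by_cases hab : a = b
      · subst hab; simp
      · simp [Matrix.diagonal_apply_ne _ hab, Matrix.one_apply_ne hab]
    rw [hdg, Matrix.diagonal_mul_diagonal, Matrix.diagonal_mul_diagonal,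
      Matrix.diagonal_apply_eq] at e1
    have e2 : (x i - c0) ^ 3 = 0 := by
      rw [Matrix.zero_apply] at e1
      linear_combination e1
    exact sub_eq_zero.mp (pow_eq_zero_iff (by norm_num) |>.mp e2)
  have hsc : X = c0 • (1 : Matrix (Fin (2 + 1)) (Fin (2 + 1)) K) := by
    apply cj_inj hP
    rw [hx', cj_smul_one P hP]
    ext i j
    by_cases hij : i = j
    · subst hij
      rw [Matrix.diagonal_apply_eq, Matrix.smul_apply, Matrix.one_apply_eq, smul_eq_mul, mul_one]
      exact hall i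
    · rw [Matrix.diagonal_apply_ne _ hij, Matrix.smul_apply, Matrix.one_apply_ne hij, smul_zero]
  exact not_scalar (by norm_num) hA _ hsc

end N704.LT
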