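import Pool.Agent.N704.LT.H

/-!
The classification.
-/

namespace N704.LT

open Matrix

variable {K : Type*} [Field K] {d : ℕ}

theorem transport_A (hd : 1 ≤ d) {X : Matrix (Fin (d + 1)) (Fin (d + 1)) K}
    (h : LeonardAt X (kA K d) (kS K d)) (c0 c1 : K)
    (hX : dbl (kA K d) X = (4 : K) • (X - c0 • (1 : Matrix (Fin (d + 1)) (Fin (d + 1)) K)
      - c1 • kA K d)) :
    ∃ δ η : K, dbl X (kA K d) = δ • kA K d - (4 * c1) • X
      + η • (1 : Matrix (Fin (d + 1)) (Fin (d + 1)) K) := by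
  obtain ⟨P, hP, hD, hT, hS⟩ := h
  have e := congrArg (cj P) hX
  rw [cj_dbl hP, cj_smul, cj_sub, cj_sub, cj_smul, cj_smul, cj_one hP] at e
  obtain ⟨δ, η, h1⟩ := dbl_dual hd hD hT c0 c1 e
  refine ⟨δ, η, cj_inj hP ?_⟩
  rw [cj_dbl hP, cj_add, cj_sub, cj_smul, cj_smul, cj_smul, cj_one hP]
  exact h1

theorem transport_H (hd : 1 ≤ d) {X : Matrix (Fin (d + 1)) (Fin (d + 1)) K}
    (h : LeonardAt X (kA K d) (kS K d)) (c0 c2 : K)
    (hX : dbl (kS K d) X = (4 : K) • (X - c0 • (1 : Matrix (Fin (d + 1)) (Fin (d + 1)) K)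
      - c2 • kS K d)) :
    ∃ δ η : K, dbl X (kS K d) = δ • kS K d - (4 * c2) • X
      + η • (1 : Matrix (Fin (d + 1)) (Fin (d + 1)) K) := by
  obtain ⟨P, hP, hD, hT, hS⟩ := h
  have e := congrArg (cj P) hX
  rw [cj_dbl hP, cj_smul, cj_sub, cj_sub, cj_smul, cj_smul, cj_one hP] at e
  obtain ⟨δ, η, h1⟩ := dbl_dual hd hD hS c0 c2 e
  refine ⟨δ, η, cj_inj hP ?_⟩
  rw [cj_dbl hP, cj_add, cj_sub, cj_smul, cj_smul, cj_smul, cj_one hP]
  exact h1

theorem mW_c4_zero (c0 c1 c2 c3 : K) : mW K d c0 c1 c2 c3 0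
    = c0 • (1 : Matrix (Fin (d + 1)) (Fin (d + 1)) K) + c1 • kA K d + c2 • kS K d
      + c3 • mG K d := by
  rw [mW, zero_smul, add_zero]

theorem necessity [CharZero K] (X : Matrix (Fin (d + 1)) (Fin (d + 1)) K)
    (hL : LeonardTriple (kA K d) (kS K d) X) :
    (∃ c0 c1 c2 c3 : K, c1 ^ 2 ≠ c3 ^ 2 ∧ c2 ^ 2 ≠ c3 ^ 2 ∧ c1 ^ 2 + c2 ^ 2 ≠ c3 ^ 2 ∧
      X = c0 • (1 : Matrix (Fin (d + 1)) (Fin (d + 1)) K) + c1 • kA K d + c2 • kS K d
        + c3 • mG K d) ∨
    (d = 2 ∧ ∃ c0 c3 c4 : K, c3 ^ 2 ≠ 4 * c4 ^ 2 ∧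
      X = c0 • (1 : Matrix (Fin (d + 1)) (Fin (d + 1)) K) + c3 • mG K d
        + c4 • (kA K d * kS K d + kS K d * kA K d)) := by
  rcases Nat.eq_zero_or_pos d with hd | hd
  · subst hd
    left
    refine ⟨X 0 0, 1, 1, 0, by norm_num, by norm_num, by norm_num, ?_⟩
    ext i j
    have hi : i = 0 := by omega
    have hj : j = 0 := by omega
    subst hi; subst hj
    simp [kA, kS]
  rcases Nat.lt_or_ge d 2 with hd2 | hd2
  · have hd1 : d = 1 := by omega
    subst hd1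
    left
    obtain ⟨c0, c1, c2, c3, hX⟩ := mem_one X
    rw [hX] at hL
    obtain ⟨h1, h2, h3⟩ := cond_generic le_rfl c0 c1 c2 c3 hL
    exact ⟨c0, c1, c2, c3, h1, h2, h3, hX⟩
  obtain ⟨c0, c1, c2, c3, c4, hX⟩ := mem_W hd2 (Phi_A_of_leonard hL.1)
    (tri_of_Phi_H (Phi_H_of_leonard hL.2.1))
  have hA : ∃ δ η : K, dbl X (kA K d) = δ • kA K d - (4 * c1) • X
      + η • (1 : Matrix (Fin (d + 1)) (Fin (d + 1)) K) := by
    apply transport_A hd hL.2.2 c0 c1
    rw [hX, dbl_AW]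
  have hH : ∃ δ η : K, dbl X (kS K d) = δ • kS K d - (4 * c2) • X
      + η • (1 : Matrix (Fin (d + 1)) (Fin (d + 1)) K) := by
    apply transport_H hd hL.2.2 c0 c2
    rw [hX, dbl_HW]
  rcases Nat.lt_or_ge 2 d with hd3 | hd3
  · left
    obtain ⟨δ, η, h⟩ := hA
    rw [hX] at h
    have h4 := c4_zero hd3 c0 c1 c2 c3 c4 δ η _ h
    subst h4
    rw [mW_c4_zero] at hX
    rw [hX] at hL
    obtain ⟨h1, h2, h3⟩ := cond_generic hd c0 c1 c2 c3 hL
    exact ⟨c0, c1, c2, c3, h1, h2, h3, hX⟩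
  · have hd' : d = 2 := by omega
    subst hd'
    obtain ⟨δ, η, h⟩ := hA
    rw [hX] at h
    have h24 := d2_c2c4 c0 c1 c2 c3 c4 δ η _ h
    obtain ⟨δ', η', h'⟩ := hH
    rw [hX] at h'
    have h14 := d2_c1c4 c0 c1 c2 c3 c4 δ' η' h'
    by_cases h4 : c4 = 0
    · left
      subst h4
      rw [mW_c4_zero] at hX
      rw [hX] at hL
      obtain ⟨h1, h2, h3⟩ := cond_generic hd c0 c1 c2 c3 hL
      exact ⟨c0, c1, c2, c3, h1, h2, h3, hX⟩
    · right
      have h1 : c1 = 0 := (mul_eq_zero.mp h14).resolve_right h4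
      have h2 : c2 = 0 := (mul_eq_zero.mp h24).resolve_right h4
      subst h1; subst h2
      have hX' : X = c0 • (1 : Matrix (Fin (2 + 1)) (Fin (2 + 1)) K) + c3 • mG K 2
          + c4 • (kA K 2 * kS K 2 + kS K 2 * kA K 2) := by
        rw [hX, mW, mQ]; simp
      rw [hX'] at hL
      exact ⟨rfl, c0, c3, c4, cond_exotic c0 c3 c4 hL, hX'⟩

theorem comm_AS_smul (c : K) :
    c • (kA K d * kS K d - kS K d * kA K d) = (-2 * c) • mG K d := by
  rw [comm_AH]; module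

/-- The classification of all third matrices. -/
theorem classification [IsAlgClosed K] [CharZero K]
    (X : Matrix (Fin (d + 1)) (Fin (d + 1)) K) :
    LeonardTriple (kA K d) (kS K d) X ↔
    (∃ x a b c : K, a ^ 2 ≠ 4 * c ^ 2 ∧ b ^ 2 ≠ 4 * c ^ 2 ∧ a ^ 2 + b ^ 2 ≠ 4 * c ^ 2 ∧
      X = x • (1 : Matrix (Fin (d + 1)) (Fin (d + 1)) K) + a • kA K d + b • kS K d
        + c • (kA K d * kS K d - kS K d * kA K d)) ∨
    (d = 2 ∧ ∃ x c e : K, c ^ 2 ≠ e ^ 2 ∧
      X = x • (1 : Matrix (Fin (d + 1)) (Fin (d + 1)) K)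
        + c • (kA K d * kS K d - kS K d * kA K d)
        + e • (kA K d * kS K d + kS K d * kA K d)) := by
  constructor
  · intro hL
    rcases necessity X hL with ⟨c0, c1, c2, c3, h1, h2, h3, hX⟩ | ⟨hd, c0, c3, c4, h, hX⟩
    · left
      refine ⟨c0, c1, c2, -c3 / 2, ?_, ?_, ?_, ?_⟩
      · intro h; apply h1; linear_combination h
      · intro h; apply h2; linear_combination h
      · intro h; apply h3; linear_combination h
      · rw [comm_AS_smul, hX]
        congr 2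
        ring
    · right
      refine ⟨hd, c0, -c3 / 2, c4, ?_, ?_⟩
      · intro h'; apply h; linear_combination 4 * h'
      · rw [comm_AS_smul, hX]
        congr 3
        ring
  · rintro (⟨x, a, b, c, h1, h2, h3, hX⟩ | ⟨hd, x, c, e, h, hX⟩)
    · rw [hX, comm_AS_smul]
      apply triple_generic
      · intro h; apply h1; linear_combination h
      · intro h; apply h2; linear_combination h
      · intro h; apply h3; linear_combination h
    · subst hd
      rw [hX, comm_AS_smul]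
      apply triple_exotic
      intro h'; apply h; linear_combination h' / 4

end N704.LT
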