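import Pool.Agent.N704.LT.I

/-!
The commutator question.
-/

set_option linter.unusedSimpArgs false

namespace N704.LT

open Matrix

variable {K : Type*} [Field K] {d : ℕ}

/-- the linear span of `I, A, A^*, X` -/
def spanOf (X : Matrix (Fin (d + 1)) (Fin (d + 1)) K) :
    Submodule K (Matrix (Fin (d + 1)) (Fin (d + 1)) K) :=
  Submodule.span K {1, kA K d, kS K d, X}

theorem mem_spanOf {X Y : Matrix (Fin (d + 1)) (Fin (d + 1)) K} :
    Y ∈ spanOf X ↔ ∃ p q r s : K,
      Y = p • (1 : Matrix (Fin (d + 1)) (Fin (d + 1)) K) + q • kA K d + r • kS K d + s • X := by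
  unfold spanOf
  constructor
  · intro h
    rw [Submodule.mem_span_insert] at h
    obtain ⟨p, z, hz, rfl⟩ := h
    rw [Submodule.mem_span_insert] at hz
    obtain ⟨q, z', hz', rfl⟩ := hz
    rw [Submodule.mem_span_insert] at hz'
    obtain ⟨r, z'', hz'', rfl⟩ := hz'
    rw [Submodule.mem_span_singleton] at hz''
    obtain ⟨s, rfl⟩ := hz''
    exact ⟨p, q, r, s, by abel⟩
  · rintro ⟨p, q, r, s, rfl⟩
    refine Submodule.add_mem _ (Submodule.add_mem _ (Submodule.add_mem _ ?_ ?_) ?_) ?_ <;>
      exact Submodule.smul_mem _ _ (Submodule.subset_span (by simp))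

theorem G_not_mem [CharZero K] (hd : 1 ≤ d) (p q r : K)
    (h : kA K d * kS K d - kS K d * kA K d
      = p • (1 : Matrix (Fin (d + 1)) (Fin (d + 1)) K) + q • kA K d + r • kS K d) : False := by
  rw [comm_AH] at h
  have h0 : 0 ≤ d := by omega
  have e01 := congrArg (fun M => ex M 0 1) h
  have e10 := congrArg (fun M => ex M 1 0) h
  simp only [ex_add, ex_smul, ex_one h0, ex_one hd, ex_G h0 hd, ex_G hd h0, ex_A h0 hd,
    ex_A hd h0, ex_H h0 hd, ex_H hd h0] at e01 e10
  simp at e01 e10
  have hd0 : (d : K) ≠ 0 := Nat.cast_ne_zero.mpr (by omega)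
  have e2 : (d : K) * (q + 2) = 0 := by linear_combination -e01
  have e3 := (mul_eq_zero.mp e2).resolve_left hd0
  have : (4 : K) = 0 := by linear_combination e10 + e3
  norm_num at this

theorem G_not_mem_exotic [CharZero K] (x c e p q r s : K) (he : e ≠ 0)
    (h : kA K 2 * kS K 2 - kS K 2 * kA K 2
      = p • (1 : Matrix (Fin (2 + 1)) (Fin (2 + 1)) K) + q • kA K 2 + r • kS K 2
        + s • (x • (1 : Matrix (Fin (2 + 1)) (Fin (2 + 1)) K)
        + c • (kA K 2 * kS K 2 - kS K 2 * kA K 2)
        + e • (kA K 2 * kS K 2 + kS K 2 * kA K 2))) : False := by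
  rw [kA_two, kS_two] at h
  have e01 := congrFun (congrFun h 0) 1
  have e10 := congrFun (congrFun h 1) 0
  have e12 := congrFun (congrFun h 1) 2
  simp [Matrix.mul_apply, Fin.sum_univ_three] at e01 e10 e12
  have h1 : 4 * (s * e) = 0 := by linear_combination e12 - e01 / 2
  have hs : s = 0 := by
    have := (mul_eq_zero.mp h1).resolve_left (by norm_num)
    exact (mul_eq_zero.mp this).resolve_right he
  subst hs
  have : (4 : K) = 0 := by linear_combination e10 - e01 / 2
  norm_num at this

theorem comm_mem_iff [IsAlgClosed K] [CharZero K] (hd : 1 ≤ d)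
    {X : Matrix (Fin (d + 1)) (Fin (d + 1)) K} (hL : LeonardTriple (kA K d) (kS K d) X)
    (h : kA K d * kS K d - kS K d * kA K d ∈ spanOf X) :
    ∃ x a b c : K, c ≠ 0 ∧
      X = x • (1 : Matrix (Fin (d + 1)) (Fin (d + 1)) K) + a • kA K d + b • kS K d
        + c • (kA K d * kS K d - kS K d * kA K d) := by
  rcases (classification X).mp hL with ⟨x, a, b, c, h1, h2, h3, hX⟩ | ⟨hd2, x, c, e, h1, hX⟩
  · refine ⟨x, a, b, c, ?_, hX⟩
    rintro rfl
    rw [zero_smul, add_zero] at hX
    obtain ⟨p, q, r, s, hm⟩ := mem_spanOf.mp h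
    apply G_not_mem hd (p + s * x) (q + s * a) (r + s * b)
    rw [hm, hX]
    module
  · subst hd2
    by_cases he : e = 0
    · subst he
      refine ⟨x, 0, 0, c, ?_, ?_⟩
      · rintro rfl; exact h1 rfl
      · rw [hX]; simp
    · exfalso
      obtain ⟨p, q, r, s, hm⟩ := mem_spanOf.mp h
      rw [hX] at hm
      exact G_not_mem_exotic x c e p q r s he hm

theorem all_mem (x a b c : K) (hc : c ≠ 0) {X : Matrix (Fin (d + 1)) (Fin (d + 1)) K}
    (hX : X = x • (1 : Matrix (Fin (d + 1)) (Fin (d + 1)) K) + a • kA K d + b • kS K d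
        + c • (kA K d * kS K d - kS K d * kA K d)) :
    kA K d * kS K d - kS K d * kA K d ∈ spanOf X ∧ kS K d * X - X * kS K d ∈ spanOf X ∧
      X * kA K d - kA K d * X ∈ spanOf X := by
  have hG : kA K d * kS K d - kS K d * kA K d
      = c⁻¹ • (X - x • (1 : Matrix (Fin (d + 1)) (Fin (d + 1)) K) - a • kA K d - b • kS K d) := by
    rw [hX]
    have : x • (1 : Matrix (Fin (d + 1)) (Fin (d + 1)) K) + a • kA K d + b • kS K d +
        c • (kA K d * kS K d - kS K d * kA K d) - x • (1 : Matrix (Fin (d + 1)) (Fin (d + 1)) K)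
        - a • kA K d - b • kS K d = c • (kA K d * kS K d - kS K d * kA K d) := by abel
    rw [this, smul_smul, inv_mul_cancel₀ hc, one_smul]
  have hSX : kS K d * X - X * kS K d
      = (-a) • (kA K d * kS K d - kS K d * kA K d) + (-4 * c) • kA K d := by
    have h1 := dbl_HA (K := K) (d := d)
    have : kS K d * X - X * kS K d = (-a) • (kA K d * kS K d - kS K d * kA K d)
        + (-c) • dbl (kS K d) (kA K d) := by
      rw [hX, dbl]
      simp only [mul_add, add_mul, mul_smul_comm, smul_mul_assoc, mul_one, one_mul, mul_sub,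
        sub_mul, smul_sub]
      module
    rw [this, h1]; module
  have hXA : X * kA K d - kA K d * X
      = (-b) • (kA K d * kS K d - kS K d * kA K d) + (-4 * c) • kS K d := by
    have h1 := dbl_AH (K := K) (d := d)
    have : X * kA K d - kA K d * X = (-b) • (kA K d * kS K d - kS K d * kA K d)
        + (-c) • dbl (kA K d) (kS K d) := by
      rw [hX, dbl]
      simp only [mul_add, add_mul, mul_smul_comm, smul_mul_assoc, mul_one, one_mul, mul_sub,
        sub_mul, smul_sub]
      module
    rw [this, h1]; module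
  have g : kA K d * kS K d - kS K d * kA K d ∈ spanOf X := by
    rw [mem_spanOf]
    refine ⟨-c⁻¹ * x, -c⁻¹ * a, -c⁻¹ * b, c⁻¹, ?_⟩
    rw [hG]; module
  have gA : kA K d ∈ spanOf X := Submodule.subset_span (by simp)
  have gS : kS K d ∈ spanOf X := Submodule.subset_span (by simp)
  refine ⟨g, ?_, ?_⟩
  · rw [hSX]
    exact Submodule.add_mem _ (Submodule.smul_mem _ _ g) (Submodule.smul_mem _ _ gA)
  · rw [hXA]
    exact Submodule.add_mem _ (Submodule.smul_mem _ _ g) (Submodule.smul_mem _ _ gS)

theorem triple_sum [IsAlgClosed K] [CharZero K] :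
    LeonardTriple (kA K d) (kS K d) (kA K d + kS K d) := by
  have := triple_generic (K := K) (d := d) 0 1 1 0 (by norm_num) (by norm_num) (by norm_num)
  simpa using this

theorem sum_not_mem [CharZero K] (hd : 1 ≤ d) :
    kA K d * kS K d - kS K d * kA K d ∉ spanOf (kA K d + kS K d) := by
  intro h
  obtain ⟨p, q, r, s, hm⟩ := mem_spanOf.mp h
  apply G_not_mem hd p (q + s) (r + s)
  rw [hm]; module

end N704.LT
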